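import Pool.Agent.Y710.CQ.BIL
import Pool.Agent.Y356.CQ.EQ

/-!
# The quadratic symbols of random tuples of primes

The bilinear estimate of helper710 for primes `1` modulo `4`, without the disjointness of the two
sets, and the joint law of the symbols of a tuple.
-/

set_option autoImplicit false

open Finset

namespace Pool.Agent.R338.EQ

open Pool.Agent.Y703.CQ Pool.Agent.Y710.CQ

theorem xi_self {p : ℕ} (hp : p.Prime) : xi p p = 0 := by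
  haveI : Fact p.Prime := ⟨hp⟩
  rw [leg, ZMod.natCast_self, quadraticChar_zero, Int.cast_zero]

theorem nr_self (p : ℕ) : nr p p = 0 := by
  unfold nr
  rw [if_pos]
  rw [ZMod.natCast_self]
  exact IsSquare.zero

theorem sg_norm (a : ZMod 2) : ‖sg a‖ ≤ 1 := by
  unfold sg
  split_ifs <;> simp

theorem xi_symm {p q : ℕ} (hp : p % 4 = 1) (hq : q.Prime) (hq2 : q ≠ 2) :
    xi p q = xi q p := by
  unfold xi
  rw [jacobiSym.quadratic_reciprocity_one_mod_four (a := p) (b := q) hp (hq.odd_of_ne_two hq2)]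

/-- the bound for the symbols `xi` -/
theorem bil2 {P Q : Finset ℕ} {A B : ℕ} (hA : 1 ≤ A) (hB : 1 ≤ B)
    (hP : ∀ p ∈ P, p.Prime ∧ p % 4 = 1 ∧ p ≤ A) (hQ : ∀ q ∈ Q, q.Prime ∧ q ≠ 2 ∧ q ≤ B)
    (c d : ℕ → ℂ) (hc : ∀ p, ‖c p‖ ≤ 1) (hd : ∀ q, ‖d q‖ ≤ 1) :
    ‖∑ p ∈ P, ∑ q ∈ Q, c p * d q * xi p q‖ ^ 12 * (min A B : ℕ) ≤
      3 * 6 ^ 6 * ((A : ℝ) * B) ^ 12 := by
  have hP' : ∀ p ∈ P, p.Prime ∧ p ≠ 2 ∧ p ≤ A := by
    intro p hp
    obtain ⟨h1, h2, h3⟩ := hP p hp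
    refine ⟨h1, ?_, h3⟩
    rintro rfl
    norm_num at h2
  rcases le_total B A with hBA | hAB
  · have e1 : ∑ p ∈ P, ∑ q ∈ Q, c p * d q * xi p q =
        ∑ q ∈ Q, ∑ p ∈ P, d q * c p * xi q p := by
      rw [sum_comm]
      refine sum_congr rfl fun q hq => sum_congr rfl fun p hp => ?_
      rw [mul_comm (c p), xi_symm (hP p hp).2.1 (hQ q hq).1 (hQ q hq).2.1]
    rw [e1, min_eq_right hBA]
    have h1 := bil hB hBA hQ hP' d c hd hc
    calc ‖∑ q ∈ Q, ∑ p ∈ P, d q * c p * xi q p‖ ^ 12 * (B : ℝ) ≤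
        (3 * 6 ^ 6 * ((B : ℝ) ^ 11 * (A : ℝ) ^ 12)) * B := by
          apply mul_le_mul_of_nonneg_right h1 (by positivity)
      _ = 3 * 6 ^ 6 * ((A : ℝ) * B) ^ 12 := by ring
  · rw [min_eq_left hAB]
    have h1 := bil hA hAB hP' hQ c d hc hd
    calc ‖∑ p ∈ P, ∑ q ∈ Q, c p * d q * xi p q‖ ^ 12 * (A : ℝ) ≤
        (3 * 6 ^ 6 * ((A : ℝ) ^ 11 * (B : ℝ) ^ 12)) * A := by
          apply mul_le_mul_of_nonneg_right h1 (by positivity)
      _ = 3 * 6 ^ 6 * ((A : ℝ) * B) ^ 12 := by ring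

/-- the saving -/
noncomputable def kap (z : ℕ) : ℝ := 4 * (z : ℝ) ^ (-(1 / 12 : ℝ))

theorem kap_nonneg (z : ℕ) : 0 ≤ kap z := by unfold kap; positivity

theorem bil3 {P Q : Finset ℕ} {A B z : ℕ} (hz : 1 ≤ z) (hzA : z ≤ A) (hzB : z ≤ B)
    (hP : ∀ p ∈ P, p.Prime ∧ p % 4 = 1 ∧ p ≤ A) (hQ : ∀ q ∈ Q, q.Prime ∧ q ≠ 2 ∧ q ≤ B)
    (c d : ℕ → ℂ) (hc : ∀ p, ‖c p‖ ≤ 1) (hd : ∀ q, ‖d q‖ ≤ 1) :
    ‖∑ p ∈ P, ∑ q ∈ Q, c p * d q * xi p q‖ ≤ 3 * ((A : ℝ) * B) * (z : ℝ) ^ (-(1 / 12 : ℝ)) := by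
  have h := bil2 (hz.trans hzA) (hz.trans hzB) hP hQ c d hc hd
  set S := ‖∑ p ∈ P, ∑ q ∈ Q, c p * d q * xi p q‖ with hS
  have hS0 : 0 ≤ S := norm_nonneg _
  have hzr : (1 : ℝ) ≤ z := by exact_mod_cast hz
  have hz0 : (0 : ℝ) < z := by linarith
  have hmin : (z : ℝ) ≤ (min A B : ℕ) := by exact_mod_cast le_min hzA hzB
  have h1 : S ^ 12 * z ≤ 3 * 6 ^ 6 * ((A : ℝ) * B) ^ 12 :=
    (mul_le_mul_of_nonneg_left hmin (by positivity)).trans h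
  have h2 : S ^ 12 ≤ (3 * ((A : ℝ) * B) * (z : ℝ) ^ (-(1 / 12 : ℝ))) ^ 12 := by
    have e1 : ((z : ℝ) ^ (-(1 / 12 : ℝ))) ^ 12 = (z : ℝ)⁻¹ := by
      rw [← Real.rpow_natCast, ← Real.rpow_mul hz0.le]
      norm_num
      exact Real.rpow_neg_one _
    rw [mul_pow, mul_pow, e1]
    have e2 : S ^ 12 ≤ 3 * 6 ^ 6 * ((A : ℝ) * B) ^ 12 / z := by
      rw [le_div_iff₀ hz0]
      exact h1
    refine e2.trans ?_
    rw [div_eq_mul_inv]
    apply mul_le_mul_of_nonneg_right _ (by positivity)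
    apply mul_le_mul_of_nonneg_right _ (by positivity)
    norm_num
  exact le_of_pow_le_pow_left₀ (by norm_num) (by positivity) h2

/-- the bound for the signs of `nr`, without disjointness -/
theorem bil4 {P Q : Finset ℕ} {A B z : ℕ} (hz : 1 ≤ z) (hzA : z ≤ A) (hzB : z ≤ B)
    (hP : ∀ p ∈ P, p.Prime ∧ p % 4 = 1 ∧ p ≤ A) (hQ : ∀ q ∈ Q, q.Prime ∧ q ≠ 2 ∧ q ≤ B)
    (c d : ℕ → ℂ) (hc : ∀ p, ‖c p‖ ≤ 1) (hd : ∀ q, ‖d q‖ ≤ 1) :
    ‖∑ p ∈ P, ∑ q ∈ Q, c p * d q * sg (nr p q)‖ ≤ kap z * ((A : ℝ) * B) := by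
  classical
  have h := bil3 hz hzA hzB hP hQ c d hc hd
  have hzr : (1 : ℝ) ≤ z := by exact_mod_cast hz
  have hz0 : (0 : ℝ) < z := by linarith
  have e1 : ∑ p ∈ P, ∑ q ∈ Q, c p * d q * sg (nr p q) =
      ∑ p ∈ P, ∑ q ∈ Q, c p * d q * xi p q + ∑ p ∈ P ∩ Q, c p * d p := by
    have e2 : ∀ p ∈ P, ∑ q ∈ Q, c p * d q * sg (nr p q) =
        ∑ q ∈ Q, c p * d q * xi p q + if p ∈ Q then c p * d p else 0 := by
      intro p hp
      rw [← Finset.sum_ite_eq' Q p (fun q => c p * d q), ← sum_add_distrib]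
      refine sum_congr rfl fun q hq => ?_
      by_cases hpq : q = p
      · subst hpq
        rw [if_pos rfl, nr_self, xi_self (hQ q hq).1]
        unfold sg
        rw [if_pos rfl]
        ring
      · rw [if_neg hpq, add_zero, sg_xi (hP p hp).1 (hQ q hq).1 (Ne.symm hpq)]
    rw [sum_congr rfl e2, sum_add_distrib, ← sum_filter, filter_mem_eq_inter]
  rw [e1]
  refine (norm_add_le _ _).trans ?_
  have h2 : ‖∑ p ∈ P ∩ Q, c p * d p‖ ≤ ((A : ℝ) * B) * (z : ℝ) ^ (-(1 / 12 : ℝ)) := by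
    have h3 : ‖∑ p ∈ P ∩ Q, c p * d p‖ ≤ ((P ∩ Q).card : ℝ) := by
      refine (norm_sum_le _ _).trans ?_
      refine (sum_le_sum (g := fun _ => (1 : ℝ)) fun p _ => ?_).trans ?_
      · rw [norm_mul]
        exact mul_le_one₀ (hc p) (norm_nonneg _) (hd p)
      · rw [sum_const, nsmul_eq_mul, mul_one]
    have h4 : ((P ∩ Q).card : ℝ) ≤ (min A B : ℕ) := by
      have h5 : P ∩ Q ⊆ Icc 1 (min A B) := by
        intro q hq
        rw [mem_inter] at hq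
        rw [mem_Icc]
        exact ⟨(hP q hq.1).1.pos, le_min (hP q hq.1).2.2 (hQ q hq.2).2.2⟩
      have h6 := card_le_card h5
      rw [Nat.card_Icc, Nat.add_sub_cancel] at h6
      exact_mod_cast h6
    refine h3.trans (h4.trans ?_)
    have hm : z ≤ max A B := hzA.trans (le_max_left _ _)
    have hm1 : (z : ℝ) ≤ (max A B : ℕ) := by exact_mod_cast hm
    have hAB : (A : ℝ) * B = (min A B : ℕ) * (max A B : ℕ) := by
      rw [← Nat.cast_mul, ← Nat.cast_mul, min_mul_max]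
    rw [hAB, mul_assoc]
    have h7 : (1 : ℝ) ≤ (max A B : ℕ) * (z : ℝ) ^ (-(1 / 12 : ℝ)) := by
      calc (1 : ℝ) = (z : ℝ) * (z : ℝ)⁻¹ := by field_simp
        _ ≤ (max A B : ℕ) * (z : ℝ) ^ (-(1 / 12 : ℝ)) := by
          apply mul_le_mul hm1 _ (by positivity) (by positivity)
          rw [← Real.rpow_neg_one]
          exact Real.rpow_le_rpow_of_exponent_le hzr (by norm_num)
    calc ((min A B : ℕ) : ℝ) = (min A B : ℕ) * 1 := by ring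
      _ ≤ _ := mul_le_mul_of_nonneg_left h7 (by positivity)
  calc _ ≤ 3 * ((A : ℝ) * B) * (z : ℝ) ^ (-(1 / 12 : ℝ)) +
        ((A : ℝ) * B) * (z : ℝ) ^ (-(1 / 12 : ℝ)) := add_le_add h h2
    _ = kap z * ((A : ℝ) * B) := by unfold kap; ring

/-- the joint law of the symbols of a tuple of primes in a box -/
theorem law {ι : Type} [Fintype ι] [LinearOrder ι] (J1 : Finset ι) (C : ι → Finset ℕ) (X : ι → ℕ)
    {z : ℕ} (hz : 1 ≤ z) (hzX : ∀ i, z ≤ X i)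
    (hC : ∀ i, ∀ p ∈ C i, p.Prime ∧ p ≠ 2 ∧ p ≤ X i) (hJ : ∀ i ∈ J1, ∀ p ∈ C i, p % 4 = 1)
    (Q : (prs J1 → ZMod 2) → Prop) :
    letI := Classical.decPred Q
    |(((Fintype.piFinset C).filter fun p => Q fun e => nr (p e.1.1) (p e.1.2)).card : ℝ) -
      ((univ.filter Q).card : ℝ) / 2 ^ (prs J1).card * ∏ j, ((C j).card : ℝ)| ≤
    2 ^ (prs J1).card * (kap z * ∏ j, (X j : ℝ)) := by
  classical
  have hcard : ∀ i, (C i).card ≤ X i := by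
    intro i
    have h5 : C i ⊆ Icc 1 (X i) := fun q hq => mem_Icc.2 ⟨(hC i q hq).1.pos, (hC i q hq).2.2⟩
    have h6 := card_le_card h5
    rwa [Nat.card_Icc, Nat.add_sub_cancel] at h6
  have h := Pool.Agent.Y356.CQ.t_EQ ι J1 C X (kap z) (kap_nonneg z) hcard
    (fun i l hil hi c d hc hd => bil4 hz (hzX i) (hzX l)
      (fun p hp => ⟨(hC i p hp).1, hJ i hi p hp, (hC i p hp).2.2⟩) (hC l) c d hc hd) Q
  convert h using 1
  
end Pool.Agent.R338.EQ
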