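import Pool.Agent.R338.EQ.SplitLaw

/-!
# The matrix of a product of two discriminants all of whose symbols are trivial
-/

set_option autoImplicit false

open scoped Classical

namespace Pool.Agent.R338.EQ

open Finset Function
open Pool.Agent.Y687.MQ (SP matD AdmD)

theorem det_mul {D₀ D : ℤ} (h0 : D₀ ≠ 0) (h1 : D ≠ 0)
    (hd : Disjoint D₀.natAbs.primeFactors D.natAbs.primeFactors)
    (h : ∀ q ∈ D₀.natAbs.primeFactors, ∀ p ∈ D.natAbs.primeFactors,
      IsSquare ((q : ℕ) : ZMod p) ∧ IsSquare ((p : ℕ) : ZMod q)) :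
    (matD (D₀ * D)).det = (matD D₀).det * (matD D).det := by
  have hpf : (D₀ * D).natAbs.primeFactors = D₀.natAbs.primeFactors ∪ D.natAbs.primeFactors := by
    rw [Int.natAbs_mul]
    exact Nat.primeFactors_mul (Int.natAbs_ne_zero.2 h0) (Int.natAbs_ne_zero.2 h1)
  have hS : ∀ q, q ∈ SP (D₀ * D) ↔ q ∈ SP D₀ ∨ q ∈ SP D := by
    intro q
    unfold Pool.Agent.Y687.MQ.SP
    rw [mem_filter, mem_filter, mem_filter, hpf, mem_union]
    tauto
  have hS0 : ∀ {D : ℤ} {q : ℕ}, q ∈ SP D → q ∈ D.natAbs.primeFactors := fun hq =>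
    (mem_filter.1 hq).1
  let e0 : SP D₀ ⊕ SP D → SP (D₀ * D) := Sum.elim (fun i => ⟨i, (hS _).2 (Or.inl i.2)⟩)
    (fun i => ⟨i, (hS _).2 (Or.inr i.2)⟩)
  have he0 : Bijective e0 := by
    constructor
    · rintro (i | i) (j | j) hij
      · have h2 : (i : ℕ) = j := congrArg (fun x : SP (D₀ * D) => (x : ℕ)) hij
        exact congrArg Sum.inl (Subtype.ext h2)
      · exfalso
        have h2 : (i : ℕ) = j := congrArg (fun x : SP (D₀ * D) => (x : ℕ)) hij
        exact disjoint_left.1 hd (hS0 i.2) (h2 ▸ hS0 j.2)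
      · exfalso
        have h2 : (i : ℕ) = j := congrArg (fun x : SP (D₀ * D) => (x : ℕ)) hij
        exact disjoint_left.1 hd (hS0 j.2) (h2 ▸ hS0 i.2)
      · have h2 : (i : ℕ) = j := congrArg (fun x : SP (D₀ * D) => (x : ℕ)) hij
        exact congrArg Sum.inr (Subtype.ext h2)
    · rintro ⟨q, hq⟩
      rcases (hS q).1 hq with h2 | h2
      · exact ⟨Sum.inl ⟨q, h2⟩, rfl⟩
      · exact ⟨Sum.inr ⟨q, h2⟩, rfl⟩
  let e : SP D₀ ⊕ SP D ≃ SP (D₀ * D) := Equiv.ofBijective e0 he0
  have hM : (matD (D₀ * D)).submatrix e e = Matrix.fromBlocks (matD D₀) 0 0 (matD D) := by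
    have hl : ∀ i : SP D₀, ((e (Sum.inl i) : SP (D₀ * D)) : ℕ) = i := fun _ => rfl
    have hr : ∀ i : SP D, ((e (Sum.inr i) : SP (D₀ * D)) : ℕ) = i := fun _ => rfl
    ext (i | i) (j | j)
    · rw [Matrix.submatrix_apply, Matrix.fromBlocks_apply₁₁]
      by_cases hij : i = j
      · subst hij
        unfold Pool.Agent.Y687.MQ.matD
        rw [Matrix.of_apply, Matrix.of_apply, if_pos rfl, if_pos rfl, hl]
        congr 3
        rw [hpf]
        ext r
        simp only [mem_filter, mem_union]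
        constructor
        · rintro ⟨h2 | h2, h3⟩
          · exact ⟨h2, h3⟩
          · exact absurd (h i (hS0 i.2) r h2).2 h3.2
        · rintro ⟨h2, h3⟩
          exact ⟨Or.inl h2, h3⟩
      · have hne : e (Sum.inl i) ≠ e (Sum.inl j) := fun h' => hij (Sum.inl_injective (e.injective h'))
        unfold Pool.Agent.Y687.MQ.matD
        rw [Matrix.of_apply, Matrix.of_apply, if_neg hne, if_neg hij, hl, hl]
    · rw [Matrix.submatrix_apply, Matrix.fromBlocks_apply₁₂, Matrix.zero_apply]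
      have hne : e (Sum.inl i) ≠ e (Sum.inr j) := fun h' => by
        have := e.injective h'
        exact Sum.inl_ne_inr this
      unfold Pool.Agent.Y687.MQ.matD
      rw [Matrix.of_apply, if_neg hne, hl, hr, if_pos (h i (hS0 i.2) j (hS0 j.2)).2]
    · rw [Matrix.submatrix_apply, Matrix.fromBlocks_apply₂₁, Matrix.zero_apply]
      have hne : e (Sum.inr i) ≠ e (Sum.inl j) := fun h' => by
        have := e.injective h'
        exact Sum.inr_ne_inl this
      unfold Pool.Agent.Y687.MQ.matD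
      rw [Matrix.of_apply, if_neg hne, hl, hr, if_pos (h j (hS0 j.2) i (hS0 i.2)).1]
    · rw [Matrix.submatrix_apply, Matrix.fromBlocks_apply₂₂]
      by_cases hij : i = j
      · subst hij
        unfold Pool.Agent.Y687.MQ.matD
        rw [Matrix.of_apply, Matrix.of_apply, if_pos rfl, if_pos rfl, hr]
        congr 3
        rw [hpf]
        ext r
        simp only [mem_filter, mem_union]
        constructor
        · rintro ⟨h2 | h2, h3⟩
          · exact absurd (h r h2 i (hS0 i.2)).1 h3.2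
          · exact ⟨h2, h3⟩
        · rintro ⟨h2, h3⟩
          exact ⟨Or.inr h2, h3⟩
      · have hne : e (Sum.inr i) ≠ e (Sum.inr j) := fun h' => hij (Sum.inr_injective (e.injective h'))
        unfold Pool.Agent.Y687.MQ.matD
        rw [Matrix.of_apply, Matrix.of_apply, if_neg hne, if_neg hij, hr, hr]
  rw [← Matrix.det_fromBlocks_zero₂₁, ← hM, Matrix.det_submatrix_equiv_self]

theorem adm_mul {D₀ D : ℤ} (h0 : AdmD D₀) (h1 : AdmD D)
    (hd : Disjoint D₀.natAbs.primeFactors D.natAbs.primeFactors) : AdmD (D₀ * D) := by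
  have hc : IsCoprime D₀ D := by
    rw [Int.isCoprime_iff_gcd_eq_one]
    exact (Nat.disjoint_primeFactors (Int.natAbs_ne_zero.2 h0.1.ne_zero)
      (Int.natAbs_ne_zero.2 h1.1.ne_zero)).1 hd
  refine ⟨?_, ?_, ?_, ?_⟩
  · rw [← Int.squarefree_natAbs, Int.natAbs_mul]
    exact (Nat.squarefree_mul (Int.isCoprime_iff_gcd_eq_one.1 hc)).2
      ⟨Int.squarefree_natAbs.2 h0.1, Int.squarefree_natAbs.2 h1.1⟩
  · rw [Int.mul_emod, h0.2.1, h1.2.1]
    norm_num
  · rw [Int.mul_emod]
    rcases h0.2.2.1 with h | h | h <;> rcases h1.2.2.1 with h' | h' | h' <;> rw [h, h'] <;> norm_num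
  · intro p hp hd'
    rcases (Nat.prime_iff_prime_int.1 hp).dvd_or_dvd hd' with h | h
    · exact h0.2.2.2 p hp h
    · exact h1.2.2.2 p hp h

end Pool.Agent.R338.EQ
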