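import Pool.Agent.R338.EQ.Cnt

/-!
# The law in a box
-/

set_option autoImplicit false

open scoped Classical

namespace Pool.Agent.R338.EQ

open Finset Function
open Pool.Agent.Y703.CQ
open Pool.Agent.Y219.CQ (sp)

/-- one fibre at a time: sums over labelled boxes -/
theorem fibre {ι : Type} [Fintype ι] [DecidableEq ι] (C : ι → Finset ℕ) (f : ℕ → ZMod 2)
    (P : (ι → ℕ) → Prop) :
    (((Fintype.piFinset C).filter P).card : ℝ) = ∑ v : ι → ZMod 2,
      (((Fintype.piFinset fun i => (C i).filter fun q => f q = v i).filter P).card : ℝ) := by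
  rw [← Nat.cast_sum]
  congr 1
  rw [Finset.card_eq_sum_card_fiberwise (f := fun p : ι → ℕ => fun i => f (p i))
    (t := (univ : Finset (ι → ZMod 2))) (fun _ _ => mem_univ _)]
  refine sum_congr rfl fun v _ => ?_
  congr 1
  ext p
  simp only [mem_filter, Fintype.mem_piFinset]
  constructor
  · rintro ⟨⟨h1, h2⟩, h3⟩
    exact ⟨fun i => ⟨h1 i, congrFun h3 i⟩, h2⟩
  · rintro ⟨h1, h2⟩
    exact ⟨⟨fun i => (h1 i).1, h2⟩, funext fun i => (h1 i).2⟩

theorem prod_fibre {ι : Type} [Fintype ι] [DecidableEq ι] (C : ι → Finset ℕ) (f : ℕ → ZMod 2) :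
    ∏ j, ((C j).card : ℝ) = ∑ v : ι → ZMod 2,
      ∏ j, (((C j).filter fun q => f q = v j).card : ℝ) := by
  have h := fibre C f (fun _ => True)
  simp only [filter_true, Fintype.card_piFinset, Nat.cast_prod] at h
  exact h

/-- the number of the tuples in a box whose system is nonsingular -/
theorem box_gdJ {ι : Type} [Fintype ι] [LinearOrder ι] (J1 : Finset ι) (hJ : ∃ l, l ∉ J1)
    (C : ι → Finset ℕ) (X : ι → ℕ) {z : ℕ} (hz : 1 ≤ z) (hzX : ∀ i, z ≤ X i)
    (hC : ∀ i, ∀ p ∈ C i, p.Prime ∧ p ≠ 2 ∧ p ≤ X i) (hJ1 : ∀ i ∈ J1, ∀ p ∈ C i, p % 4 = 1)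
    (f : ℕ → ZMod 2) :
    |(((Fintype.piFinset C).filter fun p =>
        GdJ J1 (fun k l => nr (p k) (p l)) (fun k => f (p k))).card : ℝ) -
      sp J1.card * ∏ j, ((C j).card : ℝ)| ≤
    2 ^ Fintype.card ι * (2 ^ (prs J1).card * (kap z * ∏ j, (X j : ℝ))) := by
  rw [fibre C f, prod_fibre C f, mul_sum, ← sum_sub_distrib]
  refine (abs_sum_le_sum_abs _ _).trans ?_
  have hc : (univ : Finset (ι → ZMod 2)).card = 2 ^ Fintype.card ι := by
    rw [card_univ, Fintype.card_fun, ZMod.card]
  have key : ∀ v : ι → ZMod 2,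
      |(((Fintype.piFinset fun i => (C i).filter fun q => f q = v i).filter fun p =>
          GdJ J1 (fun k l => nr (p k) (p l)) (fun k => f (p k))).card : ℝ) -
        sp J1.card * ∏ j, (((C j).filter fun q => f q = v j).card : ℝ)| ≤
      2 ^ (prs J1).card * (kap z * ∏ j, (X j : ℝ)) := by
    intro v
    have h := law J1 (fun i => (C i).filter fun q => f q = v i) X hz hzX
      (fun i p hp => hC i p (mem_filter.1 hp).1) (fun i hi p hp => hJ1 i hi p (mem_filter.1 hp).1)
      (fun α => GdJ J1 (ext α) v)
    have e1 : ((Fintype.piFinset fun i => (C i).filter fun q => f q = v i).filter fun p =>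
          GdJ J1 (fun k l => nr (p k) (p l)) (fun k => f (p k))) =
        ((Fintype.piFinset fun i => (C i).filter fun q => f q = v i).filter fun p =>
          GdJ J1 (ext fun e : prs J1 => nr (p e.1.1) (p e.1.2)) v) := by
      refine filter_congr fun p hp => ?_
      rw [Fintype.mem_piFinset] at hp
      refine gdJ_congr (fun k hk l => ?_) (fun k _ => ?_)
      · rw [ext_eq J1 p (fun i hi => ⟨(hC i _ (mem_filter.1 (hp i)).1).1,
          hJ1 i hi _ (mem_filter.1 (hp i)).1⟩) hk]
      · exact (mem_filter.1 (hp k)).2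
    rw [e1, ← prop_exact J1 hJ v]
    convert h using 2
  refine (sum_le_sum fun v _ => key v).trans ?_
  rw [sum_const, hc, nsmul_eq_mul]
  push_cast
  exact le_refl _

/-- tuples with a coincidence -/
theorem coin {ι : Type} [Fintype ι] [DecidableEq ι] (C : ι → Finset ℕ) {i j : ι} (hij : i ≠ j) :
    (((Fintype.piFinset C).filter fun p => p i = p j).card : ℝ) * (C j).card ≤
      ∏ k, ((C k).card : ℝ) := by
  have h1 : ((Fintype.piFinset C).filter fun p => p i = p j).card ≤
      (Fintype.piFinset fun k => if k = j then ({0} : Finset ℕ) else C k).card := by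
    refine card_le_card_of_injOn (fun p => Function.update p j 0) ?_ ?_
    · intro p hp
      rw [mem_coe, mem_filter, Fintype.mem_piFinset] at hp
      rw [mem_coe, Fintype.mem_piFinset]
      intro k
      by_cases hk : k = j
      · subst hk
        simp
      · rw [if_neg hk]
        simp only [Function.update_of_ne hk]
        exact hp.1 k
    · intro p hp q hq h
      rw [mem_coe, mem_filter] at hp hq
      have h2 : ∀ k, k ≠ j → p k = q k := by
        intro k hk
        have := congrFun h k
        simpa [Function.update_of_ne hk] using this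
      funext k
      by_cases hk : k = j
      · rw [hk, ← hp.2, ← hq.2]
        exact h2 i hij
      · exact h2 k hk
  have h3 : (Fintype.piFinset fun k => if k = j then ({0} : Finset ℕ) else C k).card *
      (C j).card = ∏ k, (C k).card := by
    rw [Fintype.card_piFinset, ← mul_prod_erase univ (fun k => (C k).card) (mem_univ j),
      ← mul_prod_erase univ (fun k => (if k = j then ({0} : Finset ℕ) else C k).card) (mem_univ j)]
    rw [if_pos rfl, card_singleton, one_mul, mul_comm]
    congr 1
    refine prod_congr rfl fun k hk => ?_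
    rw [if_neg (ne_of_mem_erase hk)]
  calc (((Fintype.piFinset C).filter fun p => p i = p j).card : ℝ) * (C j).card ≤
      ((Fintype.piFinset fun k => if k = j then ({0} : Finset ℕ) else C k).card : ℝ) *
        (C j).card := by
        apply mul_le_mul_of_nonneg_right (by exact_mod_cast h1) (by positivity)
    _ = ∏ k, ((C k).card : ℝ) := by
        rw [← Nat.cast_mul, h3]
        push_cast
        rfl

theorem inj_compl {ι : Type} [Fintype ι] [DecidableEq ι] (C : ι → Finset ℕ) {m : ℝ} (hm : 0 < m)
    (hCm : ∀ j, m ≤ (C j).card) :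
    (((Fintype.piFinset C).filter fun p => ¬ Injective p).card : ℝ) ≤
      (Fintype.card ι : ℝ) ^ 2 / m * ∏ k, ((C k).card : ℝ) := by
  have hP : (0 : ℝ) ≤ ∏ k, ((C k).card : ℝ) := prod_nonneg fun k _ => Nat.cast_nonneg _
  have h1 : ((Fintype.piFinset C).filter fun p => ¬ Injective p) ⊆
      (univ : Finset (ι × ι)).biUnion fun e => if e.1 ≠ e.2 then
        (Fintype.piFinset C).filter fun p => p e.1 = p e.2 else ∅ := by
    intro p hp
    rw [mem_filter] at hp
    obtain ⟨hp1, hp2⟩ := hp
    unfold Injective at hp2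
    push Not at hp2
    obtain ⟨i, j, h, hne⟩ := hp2
    rw [mem_biUnion]
    refine ⟨(i, j), mem_univ _, ?_⟩
    rw [if_pos hne, mem_filter]
    exact ⟨hp1, h⟩
  have h2 := (card_le_card h1).trans card_biUnion_le
  have h3 : (((Fintype.piFinset C).filter fun p => ¬ Injective p).card : ℝ) ≤
      ∑ e : ι × ι, ((if e.1 ≠ e.2 then
        (Fintype.piFinset C).filter fun p => p e.1 = p e.2 else ∅ : Finset (ι → ℕ)).card : ℝ) := by
    exact_mod_cast h2
  refine h3.trans ((sum_le_sum (g := fun _ => 1 / m * ∏ k, ((C k).card : ℝ)) fun e _ => ?_).trans ?_)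
  · by_cases he : e.1 ≠ e.2
    · rw [if_pos he]
      have h4 := coin C he
      have h5 : (((Fintype.piFinset C).filter fun p => p e.1 = p e.2).card : ℝ) * m ≤
          ∏ k, ((C k).card : ℝ) :=
        (mul_le_mul_of_nonneg_left (hCm e.2) (by positivity)).trans h4
      rw [one_div, inv_mul_eq_div, le_div_iff₀ hm]
      exact h5
    · rw [if_neg he, card_empty, Nat.cast_zero]
      positivity
  · rw [sum_const, card_univ, Fintype.card_prod, nsmul_eq_mul]
    push_cast
    exact le_of_eq (by ring)

end Pool.Agent.R338.EQ
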