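import Pool.Agent.R338.EQ.Rate
import Pool.Agent.TH423.SH.PAIP

/-!
# Primes in residue classes modulo `M`
-/

set_option autoImplicit false

open scoped Classical

namespace Pool.Agent.R338.EQ

open Finset Function

/-- the primes up to `Y` in the class of `a` modulo `M` -/
noncomputable def clsM (M a Y : ℕ) : Finset ℕ :=
  (range (Y + 1)).filter fun p => p.Prime ∧ p % M = a % M

theorem mem_clsM {M a Y p : ℕ} : p ∈ clsM M a Y ↔ p ≤ Y ∧ p.Prime ∧ p % M = a % M := by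
  unfold clsM
  rw [mem_filter, mem_range]
  exact and_congr_left fun _ => by omega

theorem clsM_card (M : ℕ) (hM : 0 < M) : ∃ (c : ℝ) (Y₀ : ℕ), 0 < c ∧ ∀ Y : ℕ, Y₀ ≤ Y → ∀ a : ℕ,
    Nat.Coprime a M → c * (Y / Real.log Y) ≤ ((clsM M a Y).card : ℝ) := by
  obtain ⟨x₀, hx₀⟩ := Pool.Agent.TH423.SH.pai M hM (1 / 2) (1 / 4) (by norm_num)
    (by norm_num)
  have hφ : (0 : ℝ) < (Nat.totient M : ℝ) := by
    exact_mod_cast Nat.totient_pos.2 hM
  refine ⟨1 / (8 * Nat.totient M), max 4 ⌈x₀⌉₊, by positivity, ?_⟩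
  intro Y hY a hco
  have hY4 : 4 ≤ Y := le_trans (le_max_left _ _) hY
  have hYx : x₀ ≤ (Y : ℝ) := (Nat.le_ceil x₀).trans (by exact_mod_cast (le_max_right _ _).trans hY)
  have hY4' : (4 : ℝ) ≤ Y := by exact_mod_cast hY4
  have hdiv1 : ((Y / 2 : ℕ) : ℝ) ≤ (Y : ℝ) / 2 := Nat.cast_div_le
  have hdiv2 : (Y : ℝ) / 2 ≤ ((Y / 2 + 1 : ℕ) : ℝ) := by
    have : Y < 2 * (Y / 2 + 1) := by omega
    have : (Y : ℝ) < 2 * ((Y / 2 + 1 : ℕ) : ℝ) := by exact_mod_cast this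
    linarith
  have hlog : 0 < Real.log Y := Real.log_pos (by linarith)
  have h := hx₀ Y hYx (Y / 2 + 1) Y a hdiv2 (by linarith)
    (by push_cast; linarith) hco
  have h1 := (abs_le.mp h).1
  have hsub : (Ioc (Y / 2 + 1) Y).filter (fun q => q.Prime ∧ q % M = a % M) ⊆ clsM M a Y := by
    intro q hq
    rw [mem_filter, mem_Ioc] at hq
    exact mem_clsM.2 ⟨by omega, hq.2⟩
  have hcard : (((Ioc (Y / 2 + 1) Y).filter (fun q => q.Prime ∧ q % M = a % M)).card : ℝ) ≤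
      ((clsM M a Y).card : ℝ) := by
    exact_mod_cast Finset.card_le_card hsub
  refine le_trans ?_ hcard
  have h2 : (1 / 2 : ℝ) * (((Y : ℝ) - ((Y / 2 + 1 : ℕ) : ℝ)) / ((Nat.totient M : ℝ) * Real.log Y)) ≤
      (((Ioc (Y / 2 + 1) Y).filter (fun q => q.Prime ∧ q % M = a % M)).card : ℝ) := by
    linarith
  refine le_trans ?_ h2
  have h3 : (Y : ℝ) / 4 ≤ (Y : ℝ) - ((Y / 2 + 1 : ℕ) : ℝ) := by push_cast; linarith
  have h4 : (Y : ℝ) / 4 / ((Nat.totient M : ℝ) * Real.log Y) ≤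
      ((Y : ℝ) - ((Y / 2 + 1 : ℕ) : ℝ)) / ((Nat.totient M : ℝ) * Real.log Y) := by
    apply div_le_div_of_nonneg_right h3
    positivity
  calc (1 / (8 * Nat.totient M) : ℝ) * (Y / Real.log Y) =
        1 / 2 * ((Y : ℝ) / 4 / ((Nat.totient M : ℝ) * Real.log Y)) := by
        field_simp; ring
    _ ≤ _ := by linarith

end Pool.Agent.R338.EQ
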