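import Pool.Agent.R338.EQ.Base
import Pool.Agent.Y219.CQ.LA
import Pool.Agent.Y839.CQ.SYM

/-!
# The exact probability that the matrix of a random tuple is nonsingular
-/

set_option autoImplicit false

open scoped Classical

namespace Pool.Agent.R338.EQ

open Finset Function Module
open Pool.Agent.Y759.CX (fr fr_equiv fr_comp)
open Pool.Agent.Y703.CQ
open Pool.Agent.Y219.CQ (F Sy sp Ns bf bf_add bf_symm mL mZ mL_symm mZ_symm pa pa_surj fr_Ns Gs)

/-- the system of a tuple has only the zero solution -/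
def GdJ {J : Type} [Fintype J] (J1 : Finset J) (R : J → J → ZMod 2) (g : J → ZMod 2) : Prop :=
  ∀ y : J → ZMod 2, (∀ k, k ∉ J1 → y k = 0) →
    (∀ k ∈ J1, ∑ l, R k l * (y l + y k) + g k * y k = 0) → ∀ l, y l = 0

theorem gdJ_iff {J : Type} [Fintype J] [LinearOrder J] (J1 : Finset J) (g : J → ZMod 2)
    (α : prs J1 → ZMod 2) : GdJ J1 (ext α) g ↔
      Ns (bf fun k l : J1 => mL J1 α k l + mZ J1 (fun _ (u : Fin 0) => (0 : ZMod 2)) g k l) := by
  have h := Pool.Agent.Y219.CQ.gd_iff (U := Fin 0) ∅ J1 (fun _ _ => 0) (fun _ _ => 0)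
    (fun _ _ => 0) (fun _ => 0) g (fun u => by simp) (fun u => by simp) α
  constructor
  · intro h1
    have h2 : GdA (U := Fin 0) ∅ J1 (fun _ _ => 0) (fun _ _ => 0) (fun _ _ => 0) (ext α)
        (fun _ => 0) g := by
      intro x y _ hy _ hk
      refine ⟨fun u => u.elim0, h1 y hy fun k hk1 => ?_⟩
      have := hk k hk1
      simpa using this
    have h3 := h.1 h2
    intro y hy
    exact (h3 0 y (fun x' => by
      have : x' = 0 := Subsingleton.elim _ _
      rw [this]
      simp) (fun y' => by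
      rw [hy y']
      simp)).2
  · intro h1 y hy hk l
    have h3 : GdA (U := Fin 0) ∅ J1 (fun _ _ => 0) (fun _ _ => 0) (fun _ _ => 0) (ext α)
        (fun _ => 0) g := by
      refine h.2 ?_
      intro x y h4 h5
      refine ⟨Subsingleton.elim _ _, h1 y fun y' => ?_⟩
      have h6 := h5 y'
      have h7 : x = 0 := Subsingleton.elim _ _
      rw [h7] at h6
      simpa using h6
    exact (h3 (fun u => u.elim0) y (fun u => u.elim0) hy (by simp) fun k hk1 => by
      have := hk k hk1
      simpa using this).2 l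

/-- the exact proportion -/
theorem prop_exact {J : Type} [Fintype J] [LinearOrder J] (J1 : Finset J) (hJ : ∃ l, l ∉ J1)
    (g : J → ZMod 2) :
    ((univ.filter fun α : prs J1 → ZMod 2 => GdJ J1 (ext α) g).card : ℝ) / 2 ^ (prs J1).card =
      sp J1.card := by
  have e2 : finrank F (J1 → F) = J1.card := by
    rw [finrank_fintype_fun_eq_card, Fintype.card_coe]
  have h0 := fr_Ns (V := J1 → F) Pool.Agent.Y839.CQ.t_SYM
  rw [e2] at h0
  rw [← h0]
  let S0 : Sy (J1 → F) := ⟨bf (mZ J1 (fun _ (u : Fin 0) => (0 : ZMod 2)) g),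
    bf_symm _ (mZ_symm J1 _ g)⟩
  rw [← fr_equiv (Equiv.addRight S0) (fun S : Sy (J1 → F) => Ns S.1),
    ← fr_comp (pa J1) (pa_surj J1 hJ)]
  unfold Pool.Agent.Y759.CX.fr
  have h6 : Nat.card (prs J1 → F) = 2 ^ (prs J1).card := by
    rw [Nat.card_fun, Nat.card_eq_fintype_card, Nat.card_eq_fintype_card, ZMod.card,
      Fintype.card_coe]
  rw [h6, Nat.card_eq_fintype_card, Fintype.card_subtype]
  push_cast
  congr 3
  refine Finset.filter_congr fun α _ => ?_
  rw [gdJ_iff, bf_add]
  exact Iff.rfl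

theorem nr_symm {p q : ℕ} (hp : p.Prime) (hp4 : p % 4 = 1) (hq : q.Prime) (hq4 : q % 4 = 1) :
    nr p q = nr q p := by
  haveI : Fact p.Prime := ⟨hp⟩
  haveI : Fact q.Prime := ⟨hq⟩
  have hq2 : q ≠ 2 := by
    rintro rfl
    norm_num at hq4
  unfold nr
  have h := ZMod.exists_sq_eq_prime_iff_of_mod_four_eq_one (p := p) (q := q) hp4 hq2
  by_cases h1 : IsSquare (p : ZMod q)
  · rw [if_pos h1, if_pos (h.2 h1)]
  · rw [if_neg h1, if_neg fun h2 => h1 (h.1 h2)]

theorem ext_eq {J : Type} [Fintype J] [LinearOrder J] (J1 : Finset J) (p : J → ℕ)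
    (hp : ∀ i ∈ J1, (p i).Prime ∧ p i % 4 = 1) {k : J} (hk : k ∈ J1) (l : J) :
    ext (fun e : prs J1 => nr (p e.1.1) (p e.1.2)) k l = nr (p k) (p l) := by
  unfold Pool.Agent.Y703.CQ.ext
  by_cases h : (k, l) ∈ prs J1
  · rw [dif_pos h]
  · rw [dif_neg h]
    by_cases h' : (l, k) ∈ prs J1 ∧ k ∈ J1
    · rw [dif_pos h']
      have h2 := (Pool.Agent.Y219.CQ.mem_prs J1 l k).1 h'.1
      exact nr_symm (hp l h2.1).1 (hp l h2.1).2 (hp k hk).1 (hp k hk).2
    · rw [dif_neg h']
      have hkl : l = k := by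
        by_contra hne
        rw [Pool.Agent.Y219.CQ.mem_prs] at h
        push Not at h
        obtain ⟨h1, h2⟩ := h hk hne
        apply h'
        refine ⟨(Pool.Agent.Y219.CQ.mem_prs J1 l k).2 ⟨h1, Ne.symm hne, fun _ => ?_⟩, hk⟩
        exact lt_of_le_of_ne h2 hne
      rw [hkl, nr_self]

theorem gdJ_congr {J : Type} [Fintype J] {J1 : Finset J} {R R' : J → J → ZMod 2} {g g' : J → ZMod 2}
    (h : ∀ k ∈ J1, ∀ l, R k l = R' k l) (hg : ∀ k ∈ J1, g k = g' k) :
    GdJ J1 R g ↔ GdJ J1 R' g' := by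
  unfold GdJ
  refine forall_congr' fun y => imp_congr_right fun _ => ?_
  refine imp_congr (forall_congr' fun k => ?_) Iff.rfl
  refine ⟨fun h1 hk => ?_, fun h1 hk => ?_⟩
  · rw [← h1 hk, hg k hk]
    congr 1
    exact sum_congr rfl fun l _ => by rw [h k hk l]
  · rw [← h1 hk, hg k hk]
    congr 1
    exact sum_congr rfl fun l _ => by rw [h k hk l]

/-- the matrix of the set of the primes of a tuple -/
theorem gd_image {J : Type} [Fintype J] (p : J → ℕ) (hp : Function.Injective p) (f : ℕ → ZMod 2) :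
    Gd f (univ.image p) ↔
      GdJ (univ.filter fun i => p i % 8 = 1) (fun k l => nr (p k) (p l)) (fun k => f (p k)) := by
  have hS : ∀ (h : ℕ → ZMod 2), ∑ q ∈ univ.image p, h q = ∑ i, h (p i) :=
    fun h => Finset.sum_image fun x _ y _ hxy => hp hxy
  constructor
  · intro h y hy hk l
    set x : ℕ → ZMod 2 := fun q => if hq : ∃ i, p i = q then y hq.choose else 0 with hx
    have hxp : ∀ i, x (p i) = y i := by
      intro i
      have h1 : ∃ j, p j = p i := ⟨i, rfl⟩
      rw [hx]
      simp only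
      rw [dif_pos h1, hp h1.choose_spec]
    have hcu : ∀ i, cu x (p i) = y i := by
      intro i
      unfold cu
      by_cases h1 : p i % 8 = 1
      · rw [if_pos h1, hxp]
      · rw [if_neg h1]
        exact (hy i (by simpa using h1)).symm
    have hsol : Sol f (univ.image p) x := by
      intro q hq hq8
      obtain ⟨i, -, rfl⟩ := mem_image.1 hq
      rw [hS, hxp]
      have h2 := hk i (by simpa using hq8)
      rw [← h2]
      congr 1
      exact sum_congr rfl fun l _ => by rw [hcu]
    by_cases hl : p l % 8 = 1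
    · rw [← hxp l]
      exact h x hsol (p l) (mem_image_of_mem _ (mem_univ _)) hl
    · exact hy l (by simpa using hl)
  · intro h x hx q hq hq8
    obtain ⟨i, -, rfl⟩ := mem_image.1 hq
    have hcu : ∀ k, p k % 8 = 1 → cu x (p k) = x (p k) := by
      intro k hk
      unfold cu
      rw [if_pos hk]
    have h1 := h (fun l => cu x (p l)) (fun k hk => by
      unfold cu
      rw [if_neg (by simpa using hk)]) (fun k hk => by
      have hk8 : p k % 8 = 1 := by simpa using hk
      have h2 := hx (p k) (mem_image_of_mem _ (mem_univ _)) hk8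
      rw [hS] at h2
      rw [hcu k hk8, ← h2])
      i
    rw [← hcu i hq8]
    exact h1

end Pool.Agent.R338.EQ
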