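import Pool.Agent.R338.EQ.Cls

/-!
# The graph of the quadratic symbols of a random tuple of primes
-/

set_option autoImplicit false

open scoped Classical

namespace Pool.Agent.R338.EQ

open Finset Function
open Pool.Agent.Y703.CQ

/-- the graph of the quadratic nonresidues -/
def symG {r : ℕ} (p : Fin r → ℕ) : SimpleGraph (Fin r) :=
  SimpleGraph.fromRel fun i j => ¬ IsSquare ((p j : ℕ) : ZMod (p i))

theorem prs_univ {r : ℕ} (i j : Fin r) :
    (i, j) ∈ prs (univ : Finset (Fin r)) ↔ i < j := by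
  rw [Pool.Agent.Y219.CQ.mem_prs]
  constructor
  · rintro ⟨-, -, h⟩
    exact h (mem_univ _)
  · intro h
    exact ⟨mem_univ _, ne_of_gt h, fun _ => h⟩

theorem z2_ne {x : ZMod 2} (h : x ≠ 0) : x = 1 := by
  revert x
  decide

theorem ext_symm {r : ℕ} (α : prs (univ : Finset (Fin r)) → ZMod 2) {i j : Fin r} (hij : i < j) :
    ext α i j = α ⟨(i, j), (prs_univ i j).2 hij⟩ ∧ ext α j i = α ⟨(i, j), (prs_univ i j).2 hij⟩ := by
  have h1 : (i, j) ∈ prs (univ : Finset (Fin r)) := (prs_univ i j).2 hij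
  have h2 : ¬ (j, i) ∈ prs (univ : Finset (Fin r)) := fun h =>
    absurd ((prs_univ j i).1 h) (not_lt.2 hij.le)
  unfold Pool.Agent.Y703.CQ.ext
  rw [dif_pos h1, dif_neg h2, dif_pos ⟨h1, mem_univ _⟩]
  exact ⟨rfl, rfl⟩

/-- graphs and symbols -/
noncomputable def toG (r : ℕ) : (prs (univ : Finset (Fin r)) → ZMod 2) ≃ SimpleGraph (Fin r) where
  toFun α :=
    { Adj := fun i j => i ≠ j ∧ ext α i j ≠ 0
      symm := ⟨by
        rintro i j ⟨h1, h2⟩
        refine ⟨h1.symm, ?_⟩
        rcases lt_or_gt_of_ne h1 with h | h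
        · rw [(ext_symm α h).2, ← (ext_symm α h).1]
          exact h2
        · rw [(ext_symm α h).1, ← (ext_symm α h).2]
          exact h2⟩
      loopless := ⟨fun i h => h.1 rfl⟩ }
  invFun G := fun e => if G.Adj e.1.1 e.1.2 then 1 else 0
  left_inv := by
    intro α
    funext e
    obtain ⟨⟨i, j⟩, he⟩ := e
    have hij := (prs_univ i j).1 he
    have h1 := (ext_symm α hij).1
    by_cases h : α ⟨(i, j), he⟩ = 0
    · exact (if_neg fun h' => h'.2 (h1.trans h)).trans h.symm
    · exact (if_pos ⟨ne_of_lt hij, fun h' => h (h1.symm.trans h')⟩).trans (z2_ne h).symm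
  right_inv := by
    intro G
    ext i j
    simp only
    constructor
    · rintro ⟨h1, h2⟩
      rcases lt_or_gt_of_ne h1 with h | h
      · rw [(ext_symm _ h).1] at h2
        by_contra h3
        exact h2 (if_neg h3)
      · rw [(ext_symm _ h).2] at h2
        by_contra h3
        exact h2 (if_neg fun h4 => h3 h4.symm)
    · intro h1
      refine ⟨h1.ne, ?_⟩
      rcases lt_or_gt_of_ne h1.ne with h | h
      · rw [(ext_symm _ h).1]
        rw [if_pos h1]
        decide
      · rw [(ext_symm _ h).2]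
        rw [if_pos h1.symm]
        decide

theorem toG_nr {r : ℕ} (p : Fin r → ℕ) (hp : ∀ i, (p i).Prime ∧ p i % 4 = 1) :
    toG r (fun e => nr (p e.1.1) (p e.1.2)) = symG p := by
  ext i j
  unfold symG
  rw [SimpleGraph.fromRel_adj]
  have h0 : (toG r (fun e => nr (p e.1.1) (p e.1.2))).Adj i j ↔
      i ≠ j ∧ ext (fun e : prs (univ : Finset (Fin r)) => nr (p e.1.1) (p e.1.2)) i j ≠ 0 := Iff.rfl
  rw [h0, ext_eq univ p (fun i _ => hp i) (mem_univ i)]
  have h1 : ∀ i j, nr (p i) (p j) ≠ 0 ↔ ¬ IsSquare ((p j : ℕ) : ZMod (p i)) := by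
    intro i j
    unfold nr
    by_cases h : IsSquare ((p j : ℕ) : ZMod (p i))
    · rw [if_pos h]
      simp [h]
    · rw [if_neg h]
      simp [h]
  refine and_congr_right fun _ => ?_
  rw [← h1, ← h1, nr_symm (hp j).1 (hp j).2 (hp i).1 (hp i).2, or_self]

/-- the graph of the quadratic symbols of a random tuple of primes is uniformly distributed -/
theorem graph_law {r : ℕ} (hr : 0 < r) {M : ℕ} (hM : 0 < M) (hM4 : 4 ∣ M) (a : Fin r → ℕ)
    (ha : ∀ i, Nat.Coprime (a i) M) (ha4 : ∀ i, a i % 4 = 1) (Q : SimpleGraph (Fin r) → Prop) :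
    ∃ A : ℝ, 0 ≤ A ∧ ∀ (X : Fin r → ℕ) (z : ℕ), 2 ≤ z → (∀ i, z ≤ X i) →
      (∀ i, Real.log (X i) ≤ (z : ℝ) ^ (1 / (24 * r : ℝ))) →
      |(((Fintype.piFinset fun i => clsM M (a i) (X i)).filter fun p =>
          Injective p ∧ Q (symG p)).card : ℝ) -
          (Nat.card {G : SimpleGraph (Fin r) // Q G} : ℝ) / Nat.card (SimpleGraph (Fin r)) *
            (((Fintype.piFinset fun i => clsM M (a i) (X i)).filter fun p => Injective p).card : ℝ)| ≤
        A * (z : ℝ) ^ (-(1 / 24 : ℝ)) *
          (((Fintype.piFinset fun i => clsM M (a i) (X i)).filter fun p => Injective p).card : ℝ) := by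
  obtain ⟨c, Y0, hc, hcard⟩ := clsM_card M hM
  have hne : Nonempty (Fin r) := ⟨⟨0, hr⟩⟩
  set J1 : Finset (Fin r) := univ with hJ1
  obtain ⟨A, hA, h⟩ := rate (ι := Fin r) (K := 2 ^ (prs J1).card * 4) hc
    (by positivity) Y0
  refine ⟨A, hA, fun X z hz hzX hlog => ?_⟩
  have hmem : ∀ p ∈ Fintype.piFinset fun i => clsM M (a i) (X i), ∀ i,
      p i ≤ X i ∧ (p i).Prime ∧ p i % M = a i % M := by
    intro p hp i
    rw [Fintype.mem_piFinset] at hp
    exact mem_clsM.1 (hp i)
  have hmod : ∀ i p, p % M = a i % M → p % 4 = 1 := by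
    intro i p hp
    obtain ⟨k, hk⟩ := hM4
    rw [hk] at hp
    have h1 : p % (4 * k) % 4 = a i % (4 * k) % 4 := by rw [hp]
    rw [Nat.mod_mod_of_dvd _ (Dvd.intro k rfl), Nat.mod_mod_of_dvd _ (Dvd.intro k rfl)] at h1
    rw [h1]
    exact ha4 i
  -- the counts
  have hN : (Nat.card {G : SimpleGraph (Fin r) // Q G} : ℝ) =
      ((univ.filter fun α : prs J1 → ZMod 2 => Q (toG r α)).card : ℝ) := by
    rw [← Nat.card_congr ((toG r).subtypeEquiv (p := fun α => Q (toG r α)) (q := Q)
      fun _ => Iff.rfl), Nat.card_eq_fintype_card, Fintype.card_subtype]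
  have hT : (Nat.card (SimpleGraph (Fin r)) : ℝ) = 2 ^ (prs J1).card := by
    rw [← Nat.card_congr (toG r), Nat.card_fun, Nat.card_eq_fintype_card,
      Nat.card_eq_fintype_card, ZMod.card, Fintype.card_coe]
    push_cast
    rfl
  have hTpos : (0 : ℝ) < 2 ^ (prs J1).card := by positivity
  have hs1 : (Nat.card {G : SimpleGraph (Fin r) // Q G} : ℝ) /
      Nat.card (SimpleGraph (Fin r)) ≤ 1 := by
    refine div_le_one_of_le₀ ?_ (Nat.cast_nonneg _)
    exact_mod_cast Finite.card_subtype_le Q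
  have key := h (fun i => clsM M (a i) (X i)) X z
    ((Nat.card {G : SimpleGraph (Fin r) // Q G} : ℝ) / Nat.card (SimpleGraph (Fin r)))
    (fun p => Q (toG r fun e => nr (p e.1.1) (p e.1.2))) hz hzX
    (by rw [Fintype.card_fin]; exact hlog) (by positivity) hs1
    (fun hY j => hcard (X j) (hY.trans (hzX j)) (a j) (ha j)) (fun _ => by
      have h1 := law J1 (fun i => clsM M (a i) (X i)) X (by omega : 1 ≤ z) hzX
        (fun i p hp => by
          rw [mem_clsM] at hp
          refine ⟨hp.2.1, ?_, hp.1⟩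
          rintro rfl
          have := hmod i 2 hp.2.2
          omega)
        (fun i _ p hp => hmod i p (mem_clsM.1 hp).2.2) (fun α => Q (toG r α))
      rw [hN, hT]
      refine le_trans (le_of_eq ?_) (h1.trans (le_of_eq ?_))
      · congr 3
      · unfold kap
        ring)
  have e : ((Fintype.piFinset fun i => clsM M (a i) (X i)).filter fun p =>
        Injective p ∧ Q (symG p)) =
      ((Fintype.piFinset fun i => clsM M (a i) (X i)).filter fun p =>
        Injective p ∧ Q (toG r fun e => nr (p e.1.1) (p e.1.2))) := by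
    refine filter_congr fun p hp => and_congr_right fun hinj => ?_
    rw [toG_nr p fun i => ⟨(hmem p hp i).2.1, hmod i _ (hmem p hp i).2.2⟩]
  rw [e]
  exact key

end Pool.Agent.R338.EQ
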