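import Pool.Agent.R338.EQ.Cls

/-!
# From the law in a box to the proportion, with a rate: variable weights
-/

set_option autoImplicit false

open scoped Classical

namespace Pool.Agent.R338.EQ

open Finset Function

/-- the pure inequality -/
theorem pack2 {T G G' M M' N Q w a b y : ℝ} (hT0 : 0 ≤ T) (hG0 : 0 ≤ G') (hGT : G' ≤ T)
    (hM0 : 0 ≤ M') (hMT : M' ≤ T) (hQ : 0 ≤ Q) (hw : 0 ≤ w) (ha : 0 ≤ a) (hb : 0 ≤ b) (hy : 0 ≤ y)
    (h1 : |G - M| ≤ a * w * Q) (hN : N ≤ b * w * Q) (hN0 : 0 ≤ N) (hTN : T + N = Q)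
    (hGN : G - G' ≤ N) (hG' : G' ≤ G) (hMN : M - M' ≤ N) (hM' : M' ≤ M) :
    |G' - M'| ≤ (2 * (a + 2 * b) + 2 * b + y) * w * T := by
  have hbw : 0 ≤ b * w := mul_nonneg hb hw
  have haw : 0 ≤ a * w := mul_nonneg ha hw
  have hyw : 0 ≤ y * w := mul_nonneg hy hw
  have hbT : 0 ≤ b * w * T := mul_nonneg hbw hT0
  have haT : 0 ≤ a * w * T := mul_nonneg haw hT0
  have hyT : 0 ≤ y * w * T := mul_nonneg hyw hT0
  have hbQ : 0 ≤ b * w * Q := mul_nonneg hbw hQ
  have haQ : 0 ≤ a * w * Q := mul_nonneg haw hQ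
  rw [abs_le] at h1
  have hmain : |G' - M'| ≤ a * w * Q + 2 * (b * w * Q) := by
    rw [abs_le]
    constructor
    · linarith
    · linarith
  by_cases hbig : b * w ≤ 1 / 2
  · have h2 : b * w * Q ≤ 1 / 2 * Q := mul_le_mul_of_nonneg_right hbig hQ
    have h4 : Q ≤ 2 * T := by linarith
    have h5 : a * w * Q ≤ a * w * (2 * T) := mul_le_mul_of_nonneg_left h4 haw
    have h6 : b * w * Q ≤ b * w * (2 * T) := mul_le_mul_of_nonneg_left h4 hbw
    calc |G' - M'| ≤ a * w * Q + 2 * (b * w * Q) := hmain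
      _ ≤ a * w * (2 * T) + 2 * (b * w * (2 * T)) := by linarith
      _ ≤ (2 * (a + 2 * b) + 2 * b + y) * w * T := by
        have e : (2 * (a + 2 * b) + 2 * b + y) * w * T =
          a * w * (2 * T) + 2 * (b * w * (2 * T)) + 2 * (b * w * T) + y * w * T := by ring
        rw [e]
        linarith
  · push Not at hbig
    have h2 : 1 / 2 * T ≤ b * w * T := mul_le_mul_of_nonneg_right hbig.le hT0
    have e : (2 * (a + 2 * b) + 2 * b + y) * w * T =
          2 * (a * w * T) + 6 * (b * w * T) + y * w * T := by ring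
    rw [e, abs_le]
    constructor
    · linarith
    · linarith

theorem rate2 {ι : Type} [Fintype ι] [DecidableEq ι] [Nonempty ι] {c K : ℝ} (hc : 0 < c)
    (hK : 0 ≤ K) (Y0 : ℕ) : ∃ A : ℝ, 0 ≤ A ∧ ∀ (C : ι → Finset ℕ) (X : ι → ℕ) (z : ℕ) (W : (ι → ℕ) → ℝ)
      (P : (ι → ℕ) → Prop), 2 ≤ z → (∀ i, z ≤ X i) →
      (∀ i, Real.log (X i) ≤ (z : ℝ) ^ (1 / (24 * Fintype.card ι : ℝ))) → (∀ p, 0 ≤ W p) → (∀ p, W p ≤ 1) →
      (Y0 ≤ z → ∀ j, c * (X j / Real.log (X j)) ≤ (C j).card) →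
      (Y0 ≤ z → |(((Fintype.piFinset C).filter P).card : ℝ) - ∑ p ∈ Fintype.piFinset C, W p| ≤
        K * ((z : ℝ) ^ (-(1 / 12 : ℝ)) * ∏ j, (X j : ℝ))) →
      |(((Fintype.piFinset C).filter fun p => Injective p ∧ P p).card : ℝ) -
          ∑ p ∈ (Fintype.piFinset C).filter fun p => Injective p, W p| ≤
        A * (z : ℝ) ^ (-(1 / 24 : ℝ)) *
          (((Fintype.piFinset C).filter fun p => Injective p).card : ℝ) := by
  obtain ⟨n, hn⟩ : ∃ n, n = Fintype.card ι := ⟨_, rfl⟩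
  have hn0 : 0 < n := hn ▸ Fintype.card_pos
  have hnr : (0 : ℝ) < n := by exact_mod_cast hn0
  have ha : 0 ≤ K / c ^ n := div_nonneg hK (pow_nonneg hc.le _)
  have hb : 0 ≤ (n : ℝ) ^ 2 / c := div_nonneg (sq_nonneg _) hc.le
  have hy : 0 ≤ (Y0 : ℝ) ^ (1 / 24 : ℝ) := Real.rpow_nonneg (Nat.cast_nonneg _) _
  obtain ⟨a, hadef⟩ : ∃ a, a = K / c ^ n := ⟨_, rfl⟩
  obtain ⟨b, hbdef⟩ : ∃ b, b = (n : ℝ) ^ 2 / c := ⟨_, rfl⟩
  obtain ⟨y, hydef⟩ : ∃ y, y = (Y0 : ℝ) ^ (1 / 24 : ℝ) := ⟨_, rfl⟩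
  rw [← hadef] at ha
  rw [← hbdef] at hb
  rw [← hydef] at hy
  refine ⟨2 * (a + 2 * b) + 2 * b + y, by linarith, ?_⟩
  intro C X z W P hz hzX hlog hs0 hs1 hcard hbox
  have hzr : (2 : ℝ) ≤ z := by exact_mod_cast hz
  have hz0 : (0 : ℝ) < z := by linarith
  have hGTn : ((Fintype.piFinset C).filter fun p => Injective p ∧ P p).card ≤
      ((Fintype.piFinset C).filter fun p => Injective p).card :=
    card_le_card (fun p hp => by
      rw [mem_filter] at hp ⊢
      exact ⟨hp.1, hp.2.1⟩)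
  have hGn : ((Fintype.piFinset C).filter fun p => Injective p ∧ P p).card ≤
      ((Fintype.piFinset C).filter P).card :=
    card_le_card (fun p hp => by
      rw [mem_filter] at hp ⊢
      exact ⟨hp.1, hp.2.2⟩)
  have hGNn : ((Fintype.piFinset C).filter P).card ≤
      ((Fintype.piFinset C).filter fun p => ¬ Injective p).card +
      ((Fintype.piFinset C).filter fun p => Injective p ∧ P p).card := by
    have : (Fintype.piFinset C).filter P ⊆
        ((Fintype.piFinset C).filter fun p => ¬ Injective p) ∪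
          ((Fintype.piFinset C).filter fun p => Injective p ∧ P p) := by
      intro p hp
      rw [mem_filter] at hp
      rw [mem_union, mem_filter, mem_filter]
      by_cases h : Injective p
      · exact Or.inr ⟨hp.1, h, hp.2⟩
      · exact Or.inl ⟨hp.1, h⟩
    exact (card_le_card this).trans (card_union_le _ _)
  have hTNn : ((Fintype.piFinset C).filter fun p => Injective p).card +
      ((Fintype.piFinset C).filter fun p => ¬ Injective p).card = ∏ j, (C j).card := by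
    rw [card_filter_add_card_filter_not, Fintype.card_piFinset]
  have hMsplit : ∑ p ∈ Fintype.piFinset C, W p =
      ∑ p ∈ (Fintype.piFinset C).filter (fun p => Injective p), W p +
      ∑ p ∈ (Fintype.piFinset C).filter (fun p => ¬ Injective p), W p :=
    (sum_filter_add_sum_filter_not _ _ _).symm
  have hMNn : ∑ p ∈ (Fintype.piFinset C).filter (fun p => ¬ Injective p), W p ≤
      (((Fintype.piFinset C).filter fun p => ¬ Injective p).card : ℝ) := by
    refine (sum_le_sum fun p _ => hs1 p).trans ?_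
    rw [sum_const, nsmul_eq_mul, mul_one]
  have hMNn0 : 0 ≤ ∑ p ∈ (Fintype.piFinset C).filter (fun p => ¬ Injective p), W p :=
    sum_nonneg fun p _ => hs0 p
  have hMTn : ∑ p ∈ (Fintype.piFinset C).filter (fun p => Injective p), W p ≤
      (((Fintype.piFinset C).filter fun p => Injective p).card : ℝ) := by
    refine (sum_le_sum fun p _ => hs1 p).trans ?_
    rw [sum_const, nsmul_eq_mul, mul_one]
  have hMTn0 : 0 ≤ ∑ p ∈ (Fintype.piFinset C).filter (fun p => Injective p), W p :=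
    sum_nonneg fun p _ => hs0 p
  have hic := fun {m : ℝ} (hm : 0 < m) => inj_compl C hm
  obtain ⟨T, hT⟩ : ∃ T : ℝ, T = (((Fintype.piFinset C).filter fun p => Injective p).card : ℝ) :=
    ⟨_, rfl⟩
  obtain ⟨N, hN⟩ : ∃ N : ℝ, N = (((Fintype.piFinset C).filter fun p => ¬ Injective p).card : ℝ) :=
    ⟨_, rfl⟩
  obtain ⟨G', hG'⟩ : ∃ G' : ℝ,
    G' = (((Fintype.piFinset C).filter fun p => Injective p ∧ P p).card : ℝ) := ⟨_, rfl⟩
  obtain ⟨G, hG⟩ : ∃ G : ℝ, G = (((Fintype.piFinset C).filter P).card : ℝ) := ⟨_, rfl⟩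
  obtain ⟨M, hM⟩ : ∃ M : ℝ, M = ∑ p ∈ Fintype.piFinset C, W p := ⟨_, rfl⟩
  obtain ⟨M', hM'⟩ : ∃ M' : ℝ,
    M' = ∑ p ∈ (Fintype.piFinset C).filter (fun p => Injective p), W p := ⟨_, rfl⟩
  obtain ⟨M'', hM''⟩ : ∃ M'' : ℝ,
    M'' = ∑ p ∈ (Fintype.piFinset C).filter (fun p => ¬ Injective p), W p := ⟨_, rfl⟩
  rw [← hM, ← hM', ← hM''] at hMsplit
  rw [← hM''] at hMNn0 hMNn
  rw [← hM'] at hMTn hMTn0
  rw [← hM] at hbox
  obtain ⟨Q, hQ⟩ : ∃ Q : ℝ, Q = ∏ j, ((C j).card : ℝ) := ⟨_, rfl⟩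
  have hGT : G' ≤ T := by rw [hG', hT]; exact_mod_cast hGTn
  have hG1 : G' ≤ G := by rw [hG', hG]; exact_mod_cast hGn
  have hGN : G - G' ≤ N := by
    rw [hG', hG, hN, sub_le_iff_le_add]
    exact_mod_cast hGNn
  have hTN : T + N = Q := by
    rw [hT, hN, hQ]
    exact_mod_cast hTNn
  have hT0 : 0 ≤ T := by rw [hT]; exact Nat.cast_nonneg _
  have hG0 : 0 ≤ G' := by rw [hG']; exact Nat.cast_nonneg _
  have hN0 : 0 ≤ N := by rw [hN]; exact Nat.cast_nonneg _
  have hQ0 : 0 ≤ Q := by linarith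
  rw [← hG] at hbox
  rw [← hG', ← hT, ← hM']
  rw [← hN, ← hQ] at hic
  rw [← hN] at hMNn
  rw [← hT] at hMTn
  clear hGTn hGn hGNn hTNn
  obtain ⟨w, hw⟩ : ∃ w : ℝ, w = (z : ℝ) ^ (-(1 / 24 : ℝ)) := ⟨_, rfl⟩
  have hw0 : 0 < w := by rw [hw]; exact Real.rpow_pos_of_pos hz0 _
  rw [← hw]
  by_cases hY : Y0 ≤ z
  swap
  · push Not at hY
    have h1 : (1 : ℝ) ≤ y * w := by
      rw [hw, hydef, Real.rpow_neg hz0.le, ← div_eq_mul_inv, le_div_iff₀
        (Real.rpow_pos_of_pos hz0 _), one_mul]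
      exact Real.rpow_le_rpow hz0.le (by exact_mod_cast hY.le) (by norm_num)
    have h4 : 1 * T ≤ y * w * T := mul_le_mul_of_nonneg_right h1 hT0
    have h5 : 0 ≤ a * w * T := mul_nonneg (mul_nonneg ha hw0.le) hT0
    have h6 : 0 ≤ b * w * T := mul_nonneg (mul_nonneg hb hw0.le) hT0
    have e : (2 * (a + 2 * b) + 2 * b + y) * w * T =
          2 * (a * w * T) + 6 * (b * w * T) + y * w * T := by ring
    rw [e, abs_le]
    constructor
    · linarith
    · linarith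
  have hXr : ∀ j, (2 : ℝ) ≤ X j := fun j => hzr.trans (by exact_mod_cast hzX j)
  have hlogp : ∀ j, 0 < Real.log (X j) := fun j => Real.log_pos (by linarith [hXr j])
  obtain ⟨u, hu⟩ : ∃ u : ℝ, u = (z : ℝ) ^ (1 / (24 * n : ℝ)) := ⟨_, rfl⟩
  obtain ⟨v, hv⟩ : ∃ v : ℝ, v = (z : ℝ) ^ (1 / 24 : ℝ) := ⟨_, rfl⟩
  have hu0 : 0 < u := by rw [hu]; exact Real.rpow_pos_of_pos hz0 _
  have hv0 : 0 < v := by rw [hv]; exact Real.rpow_pos_of_pos hz0 _
  have hwv : w = v⁻¹ := by rw [hw, hv]; exact Real.rpow_neg hz0.le _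
  rw [← hn, ← hu] at hlog
  have hun : u ^ n = v := by
    rw [hu, hv, ← Real.rpow_natCast, ← Real.rpow_mul hz0.le]
    congr 1
    field_simp
  have huv : u ≤ v := by
    rw [hu, hv]
    apply Real.rpow_le_rpow_of_exponent_le (by linarith)
    apply one_div_le_one_div_of_le (by norm_num)
    have : (1 : ℝ) ≤ n := by exact_mod_cast hn0
    linarith
  have hvv : v * v ≤ z := by
    calc v * v = (z : ℝ) ^ (1 / 12 : ℝ) := by
          rw [hv, ← Real.rpow_add hz0]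
          norm_num
      _ ≤ (z : ℝ) ^ (1 : ℝ) := Real.rpow_le_rpow_of_exponent_le (by linarith) (by norm_num)
      _ = z := Real.rpow_one _
  have h12 : (z : ℝ) ^ (-(1 / 12 : ℝ)) * v = w := by
    rw [hw, hv, ← Real.rpow_add hz0]
    norm_num
  -- the product of the `X j`
  have hXC : ∀ j, (X j : ℝ) ≤ u / c * (C j).card := by
    intro j
    have h1 := hcard hY j
    have h2 : (X j : ℝ) / Real.log (X j) ≤ (C j).card / c := by
      rw [le_div_iff₀ hc, mul_comm]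
      exact h1
    calc (X j : ℝ) = X j / Real.log (X j) * Real.log (X j) :=
          (div_mul_cancel₀ _ (hlogp j).ne').symm
      _ ≤ (C j).card / c * u :=
          mul_le_mul h2 (hlog j) (hlogp j).le (div_nonneg (Nat.cast_nonneg _) hc.le)
      _ = u / c * (C j).card := by ring
  have hprod : ∏ j, (X j : ℝ) ≤ v / c ^ n * Q := by
    calc ∏ j, (X j : ℝ) ≤ ∏ j, (u / c * (C j).card) :=
          prod_le_prod (fun j _ => Nat.cast_nonneg _) fun j _ => hXC j
      _ = (u / c) ^ n * Q := by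
          rw [prod_mul_distrib, prod_const, card_univ, ← hn, hQ]
      _ = v / c ^ n * Q := by rw [div_pow, hun]
  have h1 : |G - M| ≤ a * w * Q := by
    refine (hbox hY).trans ?_
    calc K * ((z : ℝ) ^ (-(1 / 12 : ℝ)) * ∏ j, (X j : ℝ)) ≤
        K * ((z : ℝ) ^ (-(1 / 12 : ℝ)) * (v / c ^ n * Q)) :=
          mul_le_mul_of_nonneg_left (mul_le_mul_of_nonneg_left hprod
            (Real.rpow_nonneg hz0.le _)) hK
      _ = K / c ^ n * ((z : ℝ) ^ (-(1 / 12 : ℝ)) * v) * Q := by ring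
      _ = a * w * Q := by rw [h12, hadef]
  -- coincidences
  have hm : ∀ j, c * v ≤ (C j).card := by
    intro j
    refine le_trans ?_ (hcard hY j)
    apply mul_le_mul_of_nonneg_left _ hc.le
    rw [le_div_iff₀ (hlogp j)]
    calc v * Real.log (X j) ≤ v * v := mul_le_mul_of_nonneg_left ((hlog j).trans huv) hv0.le
      _ ≤ z := hvv
      _ ≤ X j := by exact_mod_cast hzX j
  have h2 := hic (mul_pos hc hv0) hm
  have h3 : N ≤ b * w * Q := by
    refine h2.trans (le_of_eq ?_)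
    rw [← hn, hbdef, hwv, div_mul_eq_div_div, div_eq_mul_inv ((n : ℝ) ^ 2 / c)]
  exact pack2 hT0 hG0 hGT hMTn0 hMTn hQ0 hw0.le ha hb hy h1 h3 hN0 hTN hGN hG1 (by linarith) (by linarith)

end Pool.Agent.R338.EQ
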