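import Pool.Agent.R338.EQ.Gra
import Pool.Agent.R338.EQ.Rate2

/-!
# The graph of the quadratic symbols of a random tuple of primes, and a function of the primes
-/

set_option autoImplicit false

open scoped Classical

namespace Pool.Agent.R338.EQ

open Finset Function
open Pool.Agent.Y703.CQ

theorem fibre_sum {ι : Type} [Fintype ι] [DecidableEq ι] (C : ι → Finset ℕ) (f : ℕ → ZMod 2)
    (W : (ι → ZMod 2) → ℝ) :
    ∑ p ∈ Fintype.piFinset C, W (fun i => f (p i)) = ∑ v : ι → ZMod 2,
      W v * ∏ j, (((C j).filter fun q => f q = v j).card : ℝ) := by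
  rw [← Finset.sum_fiberwise_of_maps_to (g := fun p : ι → ℕ => fun i => f (p i))
    (t := (univ : Finset (ι → ZMod 2))) (fun _ _ => mem_univ _)]
  refine sum_congr rfl fun v _ => ?_
  have h1 : ∑ p ∈ (Fintype.piFinset C).filter (fun p => (fun i => f (p i)) = v),
      W (fun i => f (p i)) = ∑ p ∈ (Fintype.piFinset C).filter (fun p => (fun i => f (p i)) = v),
      W v := sum_congr rfl fun p hp => by rw [(mem_filter.1 hp).2]
  rw [h1, sum_const, nsmul_eq_mul, mul_comm]
  congr 1
  rw [← Nat.cast_prod, ← Fintype.card_piFinset]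
  congr 2
  ext p
  simp only [mem_filter, Fintype.mem_piFinset]
  constructor
  · rintro ⟨h1, h2⟩ i
    exact ⟨h1 i, congrFun h2 i⟩
  · intro h
    exact ⟨fun i => (h i).1, funext fun i => (h i).2⟩

/-- the graph of the quadratic symbols of a random tuple of primes is uniformly distributed,
jointly with any function of the primes -/
theorem graph_law_f {r : ℕ} (hr : 0 < r) {M : ℕ} (hM : 0 < M) (hM4 : 4 ∣ M) (a : Fin r → ℕ)
    (ha : ∀ i, Nat.Coprime (a i) M) (ha4 : ∀ i, a i % 4 = 1)
    (Q : SimpleGraph (Fin r) → (Fin r → ZMod 2) → Prop) :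
    ∃ A : ℝ, 0 ≤ A ∧ ∀ (f : ℕ → ZMod 2) (X : Fin r → ℕ) (z : ℕ), 2 ≤ z → (∀ i, z ≤ X i) →
      (∀ i, Real.log (X i) ≤ (z : ℝ) ^ (1 / (24 * r : ℝ))) →
      |(((Fintype.piFinset fun i => clsM M (a i) (X i)).filter fun p =>
          Injective p ∧ Q (symG p) (fun i => f (p i))).card : ℝ) -
          ∑ p ∈ (Fintype.piFinset fun i => clsM M (a i) (X i)).filter fun p => Injective p,
            (Nat.card {G : SimpleGraph (Fin r) // Q G (fun i => f (p i))} : ℝ) /
              Nat.card (SimpleGraph (Fin r))| ≤
        A * (z : ℝ) ^ (-(1 / 24 : ℝ)) *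
          (((Fintype.piFinset fun i => clsM M (a i) (X i)).filter fun p => Injective p).card : ℝ) := by
  obtain ⟨c, Y0, hc, hcard⟩ := clsM_card M hM
  have hne : Nonempty (Fin r) := ⟨⟨0, hr⟩⟩
  set J1 : Finset (Fin r) := univ with hJ1
  obtain ⟨A, hA, h⟩ := rate2 (ι := Fin r) (K := 2 ^ r * (2 ^ (prs J1).card * 4)) hc
    (by positivity) Y0
  refine ⟨A, hA, fun f X z hz hzX hlog => ?_⟩
  have hmem : ∀ p ∈ Fintype.piFinset fun i => clsM M (a i) (X i), ∀ i,
      p i ≤ X i ∧ (p i).Prime ∧ p i % M = a i % M := by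
    intro p hp i
    rw [Fintype.mem_piFinset] at hp
    exact mem_clsM.1 (hp i)
  have hmod : ∀ i p, p % M = a i % M → p % 4 = 1 := by
    intro i p hp
    obtain ⟨k, hk⟩ := hM4
    rw [hk] at hp
    have h1 : p % (4 * k) % 4 = a i % (4 * k) % 4 := by rw [hp]
    rw [Nat.mod_mod_of_dvd _ (Dvd.intro k rfl), Nat.mod_mod_of_dvd _ (Dvd.intro k rfl)] at h1
    rw [h1]
    exact ha4 i
  -- the counts
  have hN : ∀ v : Fin r → ZMod 2, (Nat.card {G : SimpleGraph (Fin r) // Q G v} : ℝ) =
      ((univ.filter fun α : prs J1 → ZMod 2 => Q (toG r α) v).card : ℝ) := by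
    intro v
    rw [← Nat.card_congr ((toG r).subtypeEquiv (p := fun α => Q (toG r α) v) (q := fun G => Q G v)
      fun _ => Iff.rfl), Nat.card_eq_fintype_card, Fintype.card_subtype]
  have hT : (Nat.card (SimpleGraph (Fin r)) : ℝ) = 2 ^ (prs J1).card := by
    rw [← Nat.card_congr (toG r), Nat.card_fun, Nat.card_eq_fintype_card,
      Nat.card_eq_fintype_card, ZMod.card, Fintype.card_coe]
    push_cast
    rfl
  have hW0 : ∀ v : Fin r → ZMod 2, 0 ≤ (Nat.card {G : SimpleGraph (Fin r) // Q G v} : ℝ) /
      Nat.card (SimpleGraph (Fin r)) := fun v => by positivity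
  have hW1 : ∀ v : Fin r → ZMod 2, (Nat.card {G : SimpleGraph (Fin r) // Q G v} : ℝ) /
      Nat.card (SimpleGraph (Fin r)) ≤ 1 := by
    intro v
    refine div_le_one_of_le₀ ?_ (Nat.cast_nonneg _)
    exact_mod_cast Finite.card_subtype_le fun G => Q G v
  have key := h (fun i => clsM M (a i) (X i)) X z
    (fun p => (Nat.card {G : SimpleGraph (Fin r) // Q G (fun i => f (p i))} : ℝ) /
      Nat.card (SimpleGraph (Fin r)))
    (fun p => Q (toG r fun e => nr (p e.1.1) (p e.1.2)) (fun i => f (p i))) hz hzX
    (by rw [Fintype.card_fin]; exact hlog) (fun p => hW0 _) (fun p => hW1 _)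
    (fun hY j => hcard (X j) (hY.trans (hzX j)) (a j) (ha j)) (fun _ => by
      rw [fibre _ f, fibre_sum _ f (fun v =>
        (Nat.card {G : SimpleGraph (Fin r) // Q G v} : ℝ) / Nat.card (SimpleGraph (Fin r))),
        ← sum_sub_distrib]
      refine (abs_sum_le_sum_abs _ _).trans ?_
      have hc : (univ : Finset (Fin r → ZMod 2)).card = 2 ^ r := by
        rw [card_univ, Fintype.card_fun, ZMod.card, Fintype.card_fin]
      have hb : ∀ v : Fin r → ZMod 2,
          |(((Fintype.piFinset fun i => (clsM M (a i) (X i)).filter fun q => f q = v i).filter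
            fun p => Q (toG r fun e => nr (p e.1.1) (p e.1.2)) (fun i => f (p i))).card : ℝ) -
            (Nat.card {G : SimpleGraph (Fin r) // Q G v} : ℝ) / Nat.card (SimpleGraph (Fin r)) *
              ∏ j, (((clsM M (a j) (X j)).filter fun q => f q = v j).card : ℝ)| ≤
          2 ^ (prs J1).card * (kap z * ∏ j, (X j : ℝ)) := by
        intro v
        have h1 := law J1 (fun i => (clsM M (a i) (X i)).filter fun q => f q = v i) X
          (by omega : 1 ≤ z) hzX
          (fun i p hp => by
            rw [mem_filter, mem_clsM] at hp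
            refine ⟨hp.1.2.1, ?_, hp.1.1⟩
            rintro rfl
            have := hmod i 2 hp.1.2.2
            omega)
          (fun i _ p hp => hmod i p (mem_clsM.1 (mem_filter.1 hp).1).2.2)
          (fun α => Q (toG r α) v)
        rw [hN, hT]
        have e1 : ((Fintype.piFinset fun i => (clsM M (a i) (X i)).filter fun q =>
            f q = v i).filter fun p =>
              Q (toG r fun e => nr (p e.1.1) (p e.1.2)) (fun i => f (p i))) =
            ((Fintype.piFinset fun i => (clsM M (a i) (X i)).filter fun q =>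
              f q = v i).filter fun p => Q (toG r fun e => nr (p e.1.1) (p e.1.2)) v) := by
          refine filter_congr fun p hp => ?_
          rw [Fintype.mem_piFinset] at hp
          have : (fun i => f (p i)) = v := funext fun i => (mem_filter.1 (hp i)).2
          rw [this]
        rw [e1]
        refine le_trans (le_of_eq ?_) h1
        congr 3
      refine (sum_le_sum fun v _ => hb v).trans (le_of_eq ?_)
      rw [sum_const, hc, nsmul_eq_mul]
      unfold kap
      push_cast
      ring)
  have e : ((Fintype.piFinset fun i => clsM M (a i) (X i)).filter fun p =>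
        Injective p ∧ Q (symG p) (fun i => f (p i))) =
      ((Fintype.piFinset fun i => clsM M (a i) (X i)).filter fun p =>
        Injective p ∧ Q (toG r fun e => nr (p e.1.1) (p e.1.2)) (fun i => f (p i))) := by
    refine filter_congr fun p hp => and_congr_right fun hinj => ?_
    rw [toG_nr p fun i => ⟨(hmem p hp i).2.1, hmod i _ (hmem p hp i).2.2⟩]
  rw [e]
  exact key

end Pool.Agent.R338.EQ
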