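import Mathlib

/-!
# The matrices of the induced subgraphs of a graph
-/

set_option autoImplicit false

open scoped Classical

namespace Pool.Agent.R338.EQ

open Finset

/-- the matrix over `𝔽₂` of the induced subgraph on `T`: the adjacency matrix plus the diagonal
matrix of the degrees (in the induced subgraph) and of the numbers `v i` -/
noncomputable def symMat {n : ℕ} (G : SimpleGraph (Fin n)) (v : Fin n → ZMod 2)
    (T : Finset (Fin n)) : Matrix T T (ZMod 2) := Matrix.of fun i j =>
  if i = j then ((T.filter fun l => G.Adj i l).card : ZMod 2) + v i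
  else if G.Adj (i : Fin n) j then 1 else 0

variable {n : ℕ} {G : SimpleGraph (Fin n)} {v : Fin n → ZMod 2} {T : Finset (Fin n)}

theorem symMat_self (i : T) :
    symMat G v T i i = ((T.filter fun l => G.Adj i l).card : ZMod 2) + v i := by
  unfold symMat
  rw [Matrix.of_apply, if_pos rfl]

theorem symMat_ne {i j : T} (h : i ≠ j) :
    symMat G v T i j = if G.Adj (i : Fin n) j then 1 else 0 := by
  unfold symMat
  rw [Matrix.of_apply, if_neg h]

theorem zmod2_ne {x : ZMod 2} (h : x ≠ 0) : x = 1 := by
  revert x
  decide

/-- one vertex -/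
theorem single_det {i : Fin n} (h : (symMat G v {i}).det ≠ 0) : v i = 1 := by
  have hu : Unique ({i} : Finset (Fin n)) :=
    { default := ⟨i, mem_singleton_self i⟩
      uniq := fun x => Subtype.ext (mem_singleton.1 x.2) }
  have h1 := Matrix.det_unique (symMat G v {i})
  have h2 : (default : ({i} : Finset (Fin n))) = ⟨i, mem_singleton_self i⟩ :=
    Subtype.ext (mem_singleton.1 (default : ({i} : Finset (Fin n))).2)
  rw [h1, h2, symMat_self] at h
  have h3 : ((({i} : Finset (Fin n)).filter fun l => G.Adj i l).card : ZMod 2) = 0 := by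
    have : (({i} : Finset (Fin n)).filter fun l => G.Adj i l) = ∅ := by
      rw [filter_eq_empty_iff]
      intro l hl h
      rw [mem_singleton] at hl
      exact h.ne hl.symm
    rw [this]
    simp
  simp only [h3, zero_add] at h
  exact zmod2_ne h

/-- a vertex with two neighbours -/
theorem two_nbrs {i j k : Fin n} (hv : ∀ l, v l = 1) (hij : G.Adj i j) (hik : G.Adj i k)
    (hjk : j ≠ k) : (symMat G v {i, j, k}).det = 0 := by
  have hj : j ∈ ({i, j, k} : Finset (Fin n)) := by simp
  have hk : k ∈ ({i, j, k} : Finset (Fin n)) := by simp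
  have hi : i ∈ ({i, j, k} : Finset (Fin n)) := by simp
  have hne : (⟨j, hj⟩ : ({i, j, k} : Finset (Fin n))) ≠ ⟨k, hk⟩ := fun h =>
    hjk (congrArg Subtype.val h)
  have hdeg : ∀ x y : Fin n, G.Adj i x → G.Adj i y → x ≠ y →
      ((({i, x, y} : Finset (Fin n)).filter fun l => G.Adj x l).card : ZMod 2) + 1 =
        if G.Adj x y then 1 else 0 := by
    intro x y hx hy hxy
    have hxi : x ≠ i := hx.ne.symm
    have hyi : y ≠ i := hy.ne.symm
    by_cases h : G.Adj x y
    · have : (({i, x, y} : Finset (Fin n)).filter fun l => G.Adj x l) = {i, y} := by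
        ext l
        simp only [mem_filter, mem_insert, mem_singleton]
        constructor
        · rintro ⟨h1 | h1 | h1, h2⟩
          · exact Or.inl h1
          · exact absurd h1 h2.ne.symm
          · exact Or.inr h1
        · rintro (h1 | h1)
          · subst h1
            exact ⟨Or.inl rfl, hx.symm⟩
          · subst h1
            exact ⟨Or.inr (Or.inr rfl), h⟩
      rw [this, card_pair hyi.symm, if_pos h]
      decide
    · have : (({i, x, y} : Finset (Fin n)).filter fun l => G.Adj x l) = {i} := by
        ext l
        simp only [mem_filter, mem_insert, mem_singleton]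
        constructor
        · rintro ⟨h1 | h1 | h1, h2⟩
          · exact h1
          · exact absurd h1 h2.ne.symm
          · subst h1
            exact absurd h2 h
        · intro h1
          subst h1
          exact ⟨Or.inl rfl, hx.symm⟩
      rw [this, card_singleton, if_neg h]
      decide
  refine Matrix.det_zero_of_row_eq hne ?_
  funext x
  obtain ⟨x, hx⟩ := x
  have hx' := hx
  rw [mem_insert, mem_insert, mem_singleton] at hx'
  rcases hx' with rfl | rfl | rfl
  · rw [symMat_ne (fun h => hij.ne (congrArg Subtype.val h).symm),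
      symMat_ne (fun h => hik.ne (congrArg Subtype.val h).symm), if_pos hij.symm,
      if_pos hik.symm]
  · rw [symMat_self, symMat_ne (fun h => hjk (congrArg Subtype.val h).symm), hv]
    rw [hdeg x k hij hik hjk]
    simp only [G.adj_comm]
  · rw [symMat_self, symMat_ne (fun h => hjk (congrArg Subtype.val h)), hv]
    have h1 := hdeg x j hik hij hjk.symm
    have h2 : ({i, x, j} : Finset (Fin n)) = {i, j, x} := by
      ext l
      simp only [mem_insert, mem_singleton]
      tauto
    rw [h2] at h1
    rw [h1]
    simp only [G.adj_comm]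

/-- matchings -/
theorem matching_det (hv : ∀ l, v l = 1)
    (hG : ∀ i, (univ.filter fun j => G.Adj i j).card ≤ 1) (T : Finset (Fin n)) :
    (symMat G v T).det ≠ 0 := by
  intro h0
  obtain ⟨y, hy, hM⟩ := Matrix.exists_mulVec_eq_zero_iff.2 h0
  apply hy
  have hrow : ∀ i : T, ∑ j, symMat G v T i j * y j = 0 := fun i => congrFun hM i
  have huniq : ∀ i j k : Fin n, G.Adj i j → G.Adj i k → j = k := fun i j k h1 h2 =>
    card_le_one.1 (hG i) j (mem_filter.2 ⟨mem_univ _, h1⟩) k (mem_filter.2 ⟨mem_univ _, h2⟩)
  have hpair : ∀ i j : T, G.Adj (i : Fin n) j → y j = 0 := by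
    intro i j hij
    have h1 := hrow i
    have hne : i ≠ j := fun h => hij.ne (congrArg Subtype.val h)
    rw [Finset.sum_eq_single j] at h1
    · rw [symMat_ne hne, if_pos hij, one_mul] at h1
      exact h1
    · intro k _ hkj
      by_cases hki : k = i
      · subst hki
        have h2 : (T.filter fun l => G.Adj (k : Fin n) l) = {(j : Fin n)} := by
          ext l
          rw [mem_filter, mem_singleton]
          constructor
          · rintro ⟨-, h⟩
            exact huniq _ _ _ h hij
          · rintro rfl
            exact ⟨j.2, hij⟩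
        rw [symMat_self, h2, card_singleton, hv]
        have : ((1 : ℕ) : ZMod 2) + 1 = 0 := by decide
        rw [this, zero_mul]
      · rw [symMat_ne (Ne.symm hki), if_neg fun h => hkj (Subtype.ext (huniq _ _ _ h hij)),
          zero_mul]
    · intro h
      exact absurd (mem_univ _) h
  funext i
  rw [Pi.zero_apply]
  by_cases hi : ∃ j : T, G.Adj (i : Fin n) j
  · obtain ⟨j, hj⟩ := hi
    exact hpair j i hj.symm
  · push Not at hi
    have h1 := hrow i
    rw [Finset.sum_eq_single i] at h1
    · have h2 : (T.filter fun l => G.Adj (i : Fin n) l) = ∅ := by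
        rw [filter_eq_empty_iff]
        intro l hl h
        exact hi ⟨l, hl⟩ h
      rw [symMat_self, h2, card_empty, hv, Nat.cast_zero, zero_add, one_mul] at h1
      exact h1
    · intro j _ hj
      rw [symMat_ne (Ne.symm hj), if_neg (hi j), zero_mul]
    · intro h
      exact absurd (mem_univ _) h

/-- all principal minors -/
theorem all_det : (∀ T : Finset (Fin n), T.Nonempty → (symMat G v T).det ≠ 0) ↔
    (∀ l, v l = 1) ∧ ∀ i, (univ.filter fun j => G.Adj i j).card ≤ 1 := by
  constructor
  · intro h
    have hv : ∀ l, v l = 1 := fun l => single_det (h {l} (singleton_nonempty l))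
    refine ⟨hv, fun i => card_le_one.2 fun j hj k hk => ?_⟩
    by_contra hjk
    exact h {i, j, k} (insert_nonempty _ _)
      (two_nbrs hv (mem_filter.1 hj).2 (mem_filter.1 hk).2 hjk)
  · rintro ⟨hv, hG⟩ T _
    exact matching_det hv hG T

end Pool.Agent.R338.EQ
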