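import Pool.Agent.R338.EQ.GraF
import Pool.Agent.R338.EQ.SymMat
import Pool.Agent.Y703.CQ.Cor

/-!
# The products of the primes of a tuple of split primes
-/

set_option autoImplicit false

open scoped Classical

namespace Pool.Agent.R338.EQ

open Finset Function
open Pool.Agent.Y687.MQ (SP matD AdmD)
open Pool.Agent.Z700 (pr)

theorem symG_adj {r : ℕ} {p : Fin r → ℕ} (hp : ∀ i, (p i).Prime ∧ p i % 4 = 1) (i j : Fin r) :
    (symG p).Adj i j ↔ i ≠ j ∧ ¬ IsSquare ((p j : ℕ) : ZMod (p i)) := by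
  have h1 : ∀ i j, IsSquare ((p j : ℕ) : ZMod (p i)) ↔ Pool.Agent.Y703.CQ.nr (p i) (p j) = 0 := by
    intro i j
    unfold Pool.Agent.Y703.CQ.nr
    by_cases h : IsSquare ((p j : ℕ) : ZMod (p i))
    · rw [if_pos h]
      simp [h]
    · rw [if_neg h]
      simp [h]
  unfold symG
  rw [SimpleGraph.fromRel_adj, h1, h1, nr_symm (hp j).1 (hp j).2 (hp i).1 (hp i).2, or_self]

theorem det_iff {n : ℕ} {p : Fin n → ℕ} (hinj : Injective p)
    (hp : ∀ i, (p i).Prime ∧ p i % 8 = 1) (T : Finset (Fin n)) {D : ℤ}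
    (hD : D.natAbs.primeFactors = T.image p) :
    (matD D).det ≠ 0 ↔
      (symMat (symG p) (fun i => Pool.Agent.Y703.CQ.ff (p i)) T).det ≠ 0 := by
  have hp4 : ∀ i, (p i).Prime ∧ p i % 4 = 1 := fun i => ⟨(hp i).1, by
    have := (hp i).2
    omega⟩
  have hSP : ∀ q, q ∈ SP D ↔ ∃ i ∈ T, p i = q := by
    intro q
    unfold Pool.Agent.Y687.MQ.SP
    rw [mem_filter, hD, mem_image]
    constructor
    · rintro ⟨h, -⟩
      exact h
    · rintro ⟨i, hi, rfl⟩
      exact ⟨⟨i, hi, rfl⟩, (hp i).2⟩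
  let e0 : T → SP D := fun i => ⟨p i, (hSP _).2 ⟨i, i.2, rfl⟩⟩
  have he0 : Bijective e0 := by
    constructor
    · intro i j h
      exact Subtype.ext (hinj (congrArg Subtype.val h))
    · rintro ⟨q, hq⟩
      obtain ⟨i, hi, rfl⟩ := (hSP q).1 hq
      exact ⟨⟨i, hi⟩, rfl⟩
  let e : T ≃ SP D := Equiv.ofBijective e0 he0
  have hM : symMat (symG p) (fun i => Pool.Agent.Y703.CQ.ff (p i)) T =
      (matD D).submatrix e e := by
    ext i j
    rw [Matrix.submatrix_apply]
    have he : ∀ i : T, ((e i : SP D) : ℕ) = p i := fun i => rfl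
    by_cases hij : i = j
    · subst hij
      rw [symMat_self]
      unfold Pool.Agent.Y687.MQ.matD
      rw [Matrix.of_apply, if_pos rfl, he]
      unfold Pool.Agent.Y703.CQ.ff
      congr 2
      rw [hD, filter_image, card_image_of_injective _ hinj]
      congr 1
      refine filter_congr fun l _ => ?_
      rw [symG_adj hp4]
      exact and_congr_left fun _ => ⟨fun h h' => h (hinj h'.symm), fun h h' => h (by rw [h'])⟩
    · rw [symMat_ne hij]
      unfold Pool.Agent.Y687.MQ.matD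
      have hne : e i ≠ e j := fun h => hij (e.injective h)
      rw [Matrix.of_apply, if_neg hne, he, he]
      have h1 := symG_adj hp4 (i : Fin n) j
      have hne' : (i : Fin n) ≠ j := fun h => hij (Subtype.ext h)
      by_cases h : IsSquare ((p j : ℕ) : ZMod (p i))
      · rw [if_pos h, if_neg fun h' => (h1.1 h').2 h]
      · rw [if_neg h, if_pos (h1.2 ⟨hne', h⟩)]
  rw [hM, Matrix.det_submatrix_equiv_self]

theorem adm_split {P : Finset ℕ} (hP : ∀ p ∈ P, Pool.Agent.Z701.Sp p) : AdmD (pr P : ℤ) := by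
  have hpr : pr P = ∏ p ∈ P, p := rfl
  have hsq : Squarefree (pr P) := by
    rw [hpr]
    refine Finset.squarefree_prod_of_pairwise_isCoprime (fun i hi j hj hij => ?_)
      fun i hi => (hP i hi).1.squarefree
    exact Nat.coprime_iff_isRelPrime.1 ((Nat.coprime_primes (hP i hi).1 (hP j hj).1).2 hij)
  refine ⟨?_, Pool.Agent.Y687.MQ.pr_mod4 hP, ?_, ?_⟩
  · rw [← Int.squarefree_natAbs, Int.natAbs_natCast]
    exact hsq
  · rw [← Pool.Agent.Y687.MQ.leg_iff]
    exact Pool.Agent.Y687.MQ.leg_P hP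
  · intro q hq hd
    have h1 : q ∣ ∏ p ∈ P, p := by
      rw [← hpr]
      exact_mod_cast hd
    obtain ⟨p, hp, hqp⟩ := (Prime.dvd_finset_prod_iff hq.prime _).1 h1
    have h2 : q = p := (Nat.prime_dvd_prime_iff_eq hq (hP p hp).1).1 hqp
    subst h2
    refine ⟨?_, Or.inl (hP q hp)⟩
    rintro rfl
    have := (hP 3 hp).2.1
    omega

theorem pf_pr {P : Finset ℕ} (hP : ∀ p ∈ P, p.Prime) : ((pr P : ℤ)).natAbs.primeFactors = P := by
  rw [Int.natAbs_natCast]
  exact Nat.primeFactors_prod hP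

end Pool.Agent.R338.EQ
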