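import Pool.Agent.R338.EQ.SymRow
import Pool.Agent.R338.EQ.X14c

/-!
# The products of the primes of a random tuple of split primes: explicit probabilities
-/

set_option autoImplicit false

open scoped Classical

namespace Pool.Agent.R338.EQ

open Finset Function
open Pool.Agent.Y219.CQ (F sp)
open Pool.Agent.Y703.CQ (ff)

theorem symMat_rows {n : ℕ} (G : SimpleGraph (Fin n)) (v : Fin n → ZMod 2) :
    (symMat G v univ).det ≠ 0 ↔
      ∀ w : Fin n → ZMod 2, (∀ j, v j * w j +
        ∑ k, (if G.Adj j k then (1 : ZMod 2) else 0) * (w k + w j) = 0) → w = 0 := by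
  rw [← det_rows (fun j k => if G.Adj j k then (1 : ZMod 2) else 0)
    (fun i => if_neg (SimpleGraph.irrefl G)) v]
  have e : symMat G v univ =
      (Matrix.of fun i j => if i = j then
        (∑ k, if G.Adj i k then (1 : ZMod 2) else 0) + v i else
          if G.Adj i j then (1 : ZMod 2) else 0).submatrix
        (Equiv.subtypeUnivEquiv (p := fun x : Fin n => x ∈ (univ : Finset (Fin n)))
          fun x => mem_univ x)
        (Equiv.subtypeUnivEquiv (p := fun x : Fin n => x ∈ (univ : Finset (Fin n)))
          fun x => mem_univ x) := by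
    ext i j
    rw [Matrix.submatrix_apply, Matrix.of_apply]
    have hi : ∀ i : (univ : Finset (Fin n)), (Equiv.subtypeUnivEquiv
        (p := fun x : Fin n => x ∈ (univ : Finset (Fin n))) (fun x => mem_univ x)) i =
          (i : Fin n) := fun _ => rfl
    rw [hi, hi]
    by_cases hij : i = j
    · subst hij
      rw [symMat_self, if_pos rfl]
      congr 1
      rw [card_filter, Nat.cast_sum]
      refine sum_congr rfl fun k _ => ?_
      split_ifs <;> simp
    · rw [symMat_ne hij, if_neg fun h => hij (Subtype.ext h)]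
  rw [e, Matrix.det_submatrix_equiv_self]

/-- the probability: `0` for the zero vector, otherwise the proportion of the nonsingular symmetric
matrices of one or two rows less -/
noncomputable def wt {n : ℕ} (v : Fin n → ZMod 2) : ℝ :=
  if v = 0 then 0 else sp (if ∑ i, v i = 1 then n - 1 else n - 2)

theorem graph_prob_all {n : ℕ} (hn : 0 < n) (v : Fin n → ZMod 2) :
    (Nat.card {G : SimpleGraph (Fin n) // (symMat G v univ).det ≠ 0} : ℝ) /
      Nat.card (SimpleGraph (Fin n)) = wt v := by
  obtain ⟨m, rfl⟩ : ∃ m, n = m + 1 := ⟨n - 1, by omega⟩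
  unfold wt
  by_cases hv : v = 0
  · rw [if_pos hv]
    have h0 : Nat.card {G : SimpleGraph (Fin (m + 1)) // (symMat G v univ).det ≠ 0} = 0 := by
      rw [Nat.card_eq_zero]
      refine Or.inl ⟨?_⟩
      rintro ⟨G, hG⟩
      have h1 := (symMat_rows G v).1 hG 1 fun j => by
        rw [hv]
        show (0 : ZMod 2) * 1 + ∑ k, _ * ((1 : ZMod 2) + 1) = 0
        have h2 : (1 : ZMod 2) + 1 = 0 := by decide
        rw [h2, zero_mul, zero_add]
        exact sum_eq_zero fun k _ => mul_zero _
      have h3 := congrFun h1 0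
      exact one_ne_zero h3
    rw [h0]
    simp
  · rw [if_neg hv, graph_prob v hv]
    rfl

/-- the law for the products of tuples of split primes -/
theorem split_law {n : ℕ} (hn : 0 < n) {M : ℕ} (hM : 0 < M) (hM8 : 8 ∣ M) (a : Fin n → ℕ)
    (ha : ∀ i, Nat.Coprime (a i) M) (ha8 : ∀ i, a i % 8 = 1) :
    ∃ A : ℝ, 0 ≤ A ∧ ∀ (X : Fin n → ℕ) (z : ℕ), 2 ≤ z → (∀ i, z ≤ X i) →
      (∀ i, Real.log (X i) ≤ (z : ℝ) ^ (1 / (24 * n : ℝ))) →
      |(((Fintype.piFinset fun i => clsM M (a i) (X i)).filter fun p =>
          Injective p ∧ (symMat (symG p) (fun i => ff (p i)) univ).det ≠ 0).card : ℝ) -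
          (sp (n - 1) * (((Fintype.piFinset fun i => clsM M (a i) (X i)).filter fun p =>
            Injective p ∧ Odd (univ.filter fun i => ff (p i) ≠ 0).card).card : ℝ) +
          sp (n - 2) * (((Fintype.piFinset fun i => clsM M (a i) (X i)).filter fun p =>
            Injective p ∧ Even (univ.filter fun i => ff (p i) ≠ 0).card ∧
              (univ.filter fun i => ff (p i) ≠ 0).card ≠ 0).card : ℝ))| ≤
        A * (z : ℝ) ^ (-(1 / 24 : ℝ)) *
          (((Fintype.piFinset fun i => clsM M (a i) (X i)).filter fun p => Injective p).card : ℝ) := by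
  have h4 : 4 ∣ M := Dvd.dvd.trans (by norm_num) hM8
  obtain ⟨A, hA, h⟩ := graph_law_f hn hM h4 a ha (fun i => by
    have := ha8 i
    omega) (fun G v => (symMat G v univ).det ≠ 0)
  refine ⟨A, hA, fun X z hz hzX hlog => ?_⟩
  have key := h ff X z hz hzX hlog
  have hw : ∀ p : Fin n → ℕ, wt (fun i => ff (p i)) =
      (if Odd (univ.filter fun i => ff (p i) ≠ 0).card then sp (n - 1) else 0) +
      (if Even (univ.filter fun i => ff (p i) ≠ 0).card ∧
        (univ.filter fun i => ff (p i) ≠ 0).card ≠ 0 then sp (n - 2) else 0) := by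
    intro p
    have h1 : ∑ i, ff (p i) = ((univ.filter fun i => ff (p i) ≠ 0).card : ZMod 2) := by
      rw [card_filter, Nat.cast_sum]
      refine sum_congr rfl fun i _ => ?_
      rcases z2_cases (ff (p i)) with h' | h'
      · rw [h']
        simp
      · rw [h']
        simp
    have h2 : (fun i => ff (p i)) = 0 ↔ (univ.filter fun i => ff (p i) ≠ 0).card = 0 := by
      rw [card_eq_zero, filter_eq_empty_iff]
      constructor
      · intro h' i _ h''
        exact h'' (congrFun h' i)
      · intro h'
        funext i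
        by_contra h''
        exact h' (mem_univ i) h''
    unfold wt
    rw [h1]
    by_cases hz0 : (univ.filter fun i => ff (p i) ≠ 0).card = 0
    · rw [if_pos (h2.2 hz0), hz0]
      simp
    · rw [if_neg fun h' => hz0 (h2.1 h')]
      rcases Nat.even_or_odd (univ.filter fun i => ff (p i) ≠ 0).card with he | ho
      · have h3 : ((univ.filter fun i => ff (p i) ≠ 0).card : ZMod 2) = 0 :=
          (ZMod.natCast_eq_zero_iff_even).2 he
        rw [h3, if_neg (zero_ne_one), if_neg (Nat.not_odd_iff_even.2 he), if_pos ⟨he, hz0⟩, zero_add]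
      · have h3 : ((univ.filter fun i => ff (p i) ≠ 0).card : ZMod 2) = 1 :=
          (ZMod.natCast_eq_one_iff_odd).2 ho
        rw [h3, if_pos rfl, if_pos ho, if_neg fun h' => (Nat.not_even_iff_odd.2 ho) h'.1, add_zero]
  have hsum : ∑ p ∈ (Fintype.piFinset fun i => clsM M (a i) (X i)).filter fun p => Injective p,
      (Nat.card {G : SimpleGraph (Fin n) // (symMat G (fun i => ff (p i)) univ).det ≠ 0} : ℝ) /
        Nat.card (SimpleGraph (Fin n)) =
      sp (n - 1) * (((Fintype.piFinset fun i => clsM M (a i) (X i)).filter fun p =>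
            Injective p ∧ Odd (univ.filter fun i => ff (p i) ≠ 0).card).card : ℝ) +
          sp (n - 2) * (((Fintype.piFinset fun i => clsM M (a i) (X i)).filter fun p =>
            Injective p ∧ Even (univ.filter fun i => ff (p i) ≠ 0).card ∧
              (univ.filter fun i => ff (p i) ≠ 0).card ≠ 0).card : ℝ) := by
    rw [← filter_filter, ← filter_filter, card_filter _ (filter _ _), card_filter _ (filter _ _),
      Nat.cast_sum, Nat.cast_sum, mul_sum, mul_sum, ← sum_add_distrib]
    refine sum_congr rfl fun p _ => ?_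
    rw [graph_prob_all hn, hw]
    congr 1
    · split_ifs <;> simp
    · split_ifs <;> simp
  rw [hsum] at key
  convert key

end Pool.Agent.R338.EQ
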