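import Pool.Agent.Y219.CQ.LA
import Pool.Agent.Y839.CQ.SYM
import Pool.Agent.R338.EQ.Gra
import Pool.Agent.R338.EQ.SymMat

/-!
# Random symmetric matrices over the field with two elements with prescribed row sums

The reduction `red2` is that of `Pool/Agent/Y219/CQ/Abs` (helper219), with the exact dimension.
-/

set_option autoImplicit false

open scoped Classical

namespace Pool.Agent.R338.EQ

open Function Module
open Pool.Agent.Y759.CX (fr fr_equiv fr_nonneg fr_le_one fr_mono fr_not fr_prod fr_comp fr_exists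
  fr_single)
open Pool.Agent.Y703.CQ (S_SYM S_C2 c2 prs)
open Pool.Agent.Y219.CQ (F Sy sp Ns finSy finHom finHom2 fr_Ns bf bf_apply bf_single bf_symm pa
  pa_surj mL mL_symm mem_prs)

section abs

variable {V W N X : Type} [AddCommGroup V] [Module F V] [Finite V]
  [AddCommGroup W] [Module F W] [Finite W] [AddCommGroup N] [Module F N] [Finite N]
  [AddCommGroup X] [Module F X] [Finite X]

/-- reduction to the quotient of the orthogonal complement of the kernel by its radical, with the
exact dimension -/
theorem red2 (hsym : S_SYM) (M : W →ₗ[F] W →ₗ[F] F) (hM : ∀ x y, M x y = M y x) (π : W →ₗ[F] N)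
    (hπ : Surjective π) (good : ∀ w, π w = 0 → (∀ w', M w w' = 0) → w = 0) :
    ∃ m, m + finrank F (LinearMap.ker
        (π.domRestrict (LinearMap.BilinForm.orthogonal M (LinearMap.ker π)))) = finrank F N ∧
      fr (fun T : Sy N => ∀ w, (∀ w', M w w' + T.1 (π w) (π w') = 0) → w = 0) = sp m := by
  have hR : LinearMap.IsRefl M := fun x y h => by rw [hM]; exact h
  let K : Submodule F W := LinearMap.ker π
  let P : Submodule F W := LinearMap.BilinForm.orthogonal M K
  have hP : ∀ w, w ∈ P ↔ ∀ k, π k = 0 → M w k = 0 := fun w => by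
    constructor
    · intro h k hk
      rw [hM]
      exact h k hk
    · intro h k hk
      rw [hM]
      exact h k hk
  have hfin1 : finrank F K + finrank F P = finrank F W := by
    have h1 := LinearMap.BilinForm.finrank_add_finrank_orthogonal hR K
    have h2 : K ⊓ LinearMap.BilinForm.orthogonal M ⊤ = ⊥ := by
      rw [eq_bot_iff]
      intro w hw
      rw [Submodule.mem_inf] at hw
      rw [Submodule.mem_bot]
      exact good w hw.1 (fun w' => by rw [hM]; exact hw.2 w' Submodule.mem_top)
    rw [h2, finrank_bot, add_zero] at h1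
    exact h1
  have hfin2 : finrank F N + finrank F K = finrank F W := by
    have h1 := LinearMap.finrank_range_add_finrank_ker π
    rw [LinearMap.range_eq_top.2 hπ, finrank_top] at h1
    exact h1
  let r : P →ₗ[F] N := π.domRestrict P
  let Z := LinearMap.range r
  have hfin3 : finrank F Z + finrank F (LinearMap.ker r) = finrank F P :=
    LinearMap.finrank_range_add_finrank_ker r
  refine ⟨finrank F Z, by
    change finrank F Z + finrank F (LinearMap.ker r) = finrank F N
    omega, ?_⟩
  obtain ⟨σ, hσ⟩ := r.rangeRestrict.exists_rightInverse_of_surjective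
    (LinearMap.range_rangeRestrict r)
  have hσ' : ∀ z : Z, π (σ z : W) = z := fun z => congrArg Subtype.val (LinearMap.congr_fun hσ z)
  have hσP : ∀ z : Z, ((σ z : P) : W) ∈ P := fun z => (σ z).2
  let ρ : Sy N →+ Sy Z :=
    { toFun := fun T => ⟨T.1.compl₁₂ Z.subtype Z.subtype, fun x y => T.2 x y⟩
      map_zero' := rfl
      map_add' := fun _ _ => rfl }
  have hρ : Surjective ρ := by
    obtain ⟨q, hq⟩ := LinearMap.exists_leftInverse_of_injective Z.subtype
      (LinearMap.ker_eq_bot.2 Z.injective_subtype)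
    have hq' : ∀ z : Z, q (z : N) = z := fun z => LinearMap.congr_fun hq z
    intro T
    refine ⟨⟨T.1.compl₁₂ q q, fun x y => T.2 _ _⟩, ?_⟩
    refine Subtype.ext (LinearMap.ext fun x => LinearMap.ext fun y => ?_)
    show T.1 (q (x : N)) (q (y : N)) = T.1 x y
    rw [hq', hq']
  let β : Sy Z := ⟨M.compl₁₂ (P.subtype ∘ₗ σ) (P.subtype ∘ₗ σ), fun x y => hM _ _⟩
  have hval : ∀ (T : Sy N) (z z' : Z), (ρ T + β).1 z z' =
      T.1 (z : N) (z' : N) + M (σ z : W) (σ z' : W) := fun _ _ _ => rfl
  have hiff : ∀ T : Sy N, (∀ w, (∀ w', M w w' + T.1 (π w) (π w') = 0) → w = 0) ↔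
      Ns (ρ T + β).1 := by
    intro T
    constructor
    · intro h z hz
      let M' : W →ₗ[F] W →ₗ[F] F := M + T.1.compl₁₂ π π
      have hM' : ∀ w w', M' w w' = M w w' + T.1 (π w) (π w') := fun _ _ => rfl
      have hS' : ∀ w w', M' w w' = M' w' w := fun w w' => by
        rw [hM', hM', hM w w', T.2 (π w) (π w')]
      have hR' : LinearMap.IsRefl M' := fun x y h => by rw [hS']; exact h
      have hN' : LinearMap.BilinForm.Nondegenerate M' := ⟨h, fun y hy => h y fun x => by
        rw [← hM', hS']; exact hy x⟩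
      have h1 := LinearMap.BilinForm.orthogonal_orthogonal hN' hR' K
      have h2 : LinearMap.BilinForm.orthogonal M' K = P := by
        ext w
        constructor
        · intro hw k hk
          have h3 := hw k hk
          have h4 : π k = 0 := hk
          rw [hM', h4, map_zero, LinearMap.zero_apply, add_zero] at h3
          exact h3
        · intro hw k hk
          have h4 : π k = 0 := hk
          rw [hM', h4, map_zero, LinearMap.zero_apply, add_zero]
          exact hw k hk
      rw [h2] at h1
      have h3 : ((σ z : P) : W) ∈ LinearMap.BilinForm.orthogonal M' P := by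
        intro w' hw'
        rw [hS', hM']
        obtain ⟨z', hz'⟩ : ∃ z' : Z, (z' : N) = π w' := ⟨⟨π w', ⟨w', hw'⟩, rfl⟩, rfl⟩
        have h4 := hz z'
        rw [hval] at h4
        have h5 : π (w' - (σ z' : W)) = 0 := by rw [map_sub, hσ', hz', sub_self]
        have h6 := (hP _).1 (hσP z) _ h5
        rw [map_sub, sub_eq_zero] at h6
        rw [h6, hσ', ← hz', add_comm]
        exact h4
      rw [h1] at h3
      have h7 : π (σ z : W) = 0 := h3
      rw [hσ'] at h7
      exact Subtype.ext h7
    · intro h w hw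
      have hwP : w ∈ P := (hP w).2 fun k hk => by
        have h1 := hw k
        rwa [hk, map_zero, add_zero] at h1
      obtain ⟨z, hz⟩ : ∃ z : Z, (z : N) = π w := ⟨⟨π w, ⟨w, hwP⟩, rfl⟩, rfl⟩
      have h1 : z = 0 := h z fun z' => by
        rw [hval]
        have h5 : π (w - (σ z : W)) = 0 := by rw [map_sub, hσ', hz, sub_self]
        have h6 := (hP _).1 (hσP z') _ h5
        rw [map_sub, sub_eq_zero] at h6
        rw [hM, ← h6, hM, hz, ← hσ' z', add_comm]
        exact hw _
      have h2 : π w = 0 := by rw [← hz, h1]; rfl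
      refine good w h2 fun w' => ?_
      have h3 := hw w'
      rwa [h2, map_zero, LinearMap.zero_apply, add_zero] at h3
  rw [← fr_Ns hsym (V := Z), ← fr_equiv (Equiv.addRight β) (fun S : Sy Z => Ns S.1),
    ← fr_comp ρ hρ]
  congr 1
  funext T
  exact propext (hiff T)

end abs

open Finset

/-- the vertices but the last one -/
def J1 (m : ℕ) : Finset (Fin (m + 1)) := univ.erase (Fin.last m)

theorem mem_J1 {m : ℕ} (k : Fin (m + 1)) : k ∈ J1 m ↔ k ≠ Fin.last m := by
  unfold J1
  rw [mem_erase]
  exact ⟨fun h => h.1, fun h => ⟨h, mem_univ _⟩⟩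

/-- the projection -/
noncomputable def prj (m : ℕ) : (Fin (m + 1) → F) →ₗ[F] (J1 m → F) where
  toFun w := fun k => w k + w (Fin.last m)
  map_add' x y := by
    funext k
    show x k + y k + (x (Fin.last m) + y (Fin.last m)) = x k + x (Fin.last m) + (y k + y (Fin.last m))
    ring
  map_smul' a x := by
    funext k
    show a * x k + a * x (Fin.last m) = a * (x k + x (Fin.last m))
    ring

theorem prj_apply {m : ℕ} (w : Fin (m + 1) → F) (k : J1 m) :
    prj m w k = w k + w (Fin.last m) := rfl

theorem prj_surj (m : ℕ) : Surjective (prj m) := by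
  intro y
  refine ⟨fun k => if h : k ∈ J1 m then y ⟨k, h⟩ else 0, ?_⟩
  funext k
  have h0 : Fin.last m ∉ J1 m := fun h => (mem_J1 _).1 h rfl
  rw [prj_apply, dif_pos k.2, dif_neg h0, add_zero]

theorem two_eq (a : F) : a + a = 0 := CharTwo.add_self_eq_zero a

theorem prj_zero {m : ℕ} {w : Fin (m + 1) → F} (h : prj m w = 0) :
    w = w (Fin.last m) • (1 : Fin (m + 1) → F) := by
  funext k
  show w k = w (Fin.last m) * 1
  rw [mul_one]
  by_cases hk : k = Fin.last m
  · rw [hk]
  · have h1 := congrFun h ⟨k, (mem_J1 k).2 hk⟩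
    rw [prj_apply] at h1
    have h2 : w k + w (Fin.last m) = 0 := h1
    have h3 := two_eq (w (Fin.last m))
    calc w k = w k + (w (Fin.last m) + w (Fin.last m)) := by rw [h3, add_zero]
      _ = (w k + w (Fin.last m)) + w (Fin.last m) := by ring
      _ = w (Fin.last m) := by rw [h2, zero_add]

theorem prj_one (m : ℕ) : prj m 1 = 0 := by
  funext k
  rw [prj_apply]
  exact two_eq _

/-- the diagonal form -/
noncomputable def dg {n : ℕ} (v : Fin n → F) : (Fin n → F) →ₗ[F] (Fin n → F) →ₗ[F] F :=
  bf fun i j => if i = j then v i else 0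

theorem dg_apply {n : ℕ} (v w w' : Fin n → F) : dg v w w' = ∑ i, v i * w i * w' i := by
  unfold dg
  rw [bf_apply]
  refine sum_congr rfl fun i _ => ?_
  rw [sum_eq_single i]
  · rw [if_pos rfl]
    ring
  · intro j _ hj
    rw [if_neg (Ne.symm hj)]
    ring
  · intro h
    exact absurd (mem_univ _) h

theorem dg_symm {n : ℕ} (v w w' : Fin n → F) : dg v w w' = dg v w' w := by
  rw [dg_apply, dg_apply]
  exact sum_congr rfl fun i _ => by ring

theorem z2_cases (a : F) : a = 0 ∨ a = 1 := by
  revert a
  decide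

/-- the probability that the matrix is nonsingular -/
theorem row_prob {m : ℕ} (v : Fin (m + 1) → F) (hv : v ≠ 0) :
    fr (fun T : Sy (J1 m → F) => ∀ w, (∀ w', dg v w w' + T.1 (prj m w) (prj m w') = 0) → w = 0) =
      sp (if ∑ i, v i = 1 then m else m - 1) := by
  have hgood : ∀ w, prj m w = 0 → (∀ w', dg v w w' = 0) → w = 0 := by
    intro w hw h
    obtain ⟨i, hi⟩ := Function.ne_iff.1 hv
    have h1 := h (Pi.single i 1)
    rw [dg_apply, sum_eq_single i] at h1
    · rw [Pi.single_eq_same, mul_one] at h1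
      have h2 : w i = 0 := by
        rcases mul_eq_zero.1 h1 with h3 | h3
        · exact absurd h3 hi
        · exact h3
      have h3 := prj_zero hw
      have h4 : w i = w (Fin.last m) := by
        have := congrFun h3 i
        rw [this]
        show w (Fin.last m) * 1 = _
        rw [mul_one]
      rw [h3, ← h4, h2, zero_smul]
    · intro j _ hj
      rw [Pi.single_eq_of_ne hj, mul_zero]
    · intro h'
      exact absurd (mem_univ _) h'
  obtain ⟨d, hd, h⟩ := red2 Pool.Agent.Y839.CQ.t_SYM (dg v) (dg_symm v) (prj m) (prj_surj m) hgood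
  rw [h]
  have hN : finrank F (J1 m → F) = m := by
    rw [Module.finrank_fintype_fun_eq_card, Fintype.card_coe]
    unfold J1
    rw [card_erase_of_mem (mem_univ _), card_univ, Fintype.card_fin, Nat.add_sub_cancel]
  rw [hN] at hd
  have h11 : dg v 1 1 = ∑ i, v i := by
    rw [dg_apply]
    exact sum_congr rfl fun i _ => by
      show v i * 1 * 1 = v i
      rw [mul_one, mul_one]
  congr 1
  by_cases hs : ∑ i, v i = 1
  · rw [if_pos hs]
    have h0 : LinearMap.ker ((prj m).domRestrict (LinearMap.BilinForm.orthogonal (dg v)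
        (LinearMap.ker (prj m)))) = ⊥ := by
      rw [eq_bot_iff]
      rintro ⟨x, hx⟩ hx0
      have h1 : prj m x = 0 := hx0
      have h2 := prj_zero h1
      have h3 : dg v 1 x = 0 := hx 1 (prj_one m)
      rw [h2, map_smul, h11, hs, smul_eq_mul, mul_one] at h3
      rw [Submodule.mem_bot]
      refine Subtype.ext ?_
      show x = 0
      rw [h2, h3, zero_smul]
    rw [h0, finrank_bot] at hd
    omega
  · rw [if_neg hs]
    have hs0 : ∑ i, v i = 0 := (z2_cases _).resolve_right hs
    have hmem : (1 : Fin (m + 1) → F) ∈ LinearMap.BilinForm.orthogonal (dg v)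
        (LinearMap.ker (prj m)) := by
      intro k hk
      have h2 := prj_zero (w := k) hk
      show dg v k 1 = 0
      rw [h2, map_smul, LinearMap.smul_apply, h11, hs0, smul_zero]
    have h1 : finrank F (LinearMap.ker ((prj m).domRestrict (LinearMap.BilinForm.orthogonal (dg v)
        (LinearMap.ker (prj m))))) = 1 := by
      have hne : (⟨⟨1, hmem⟩, prj_one m⟩ : LinearMap.ker ((prj m).domRestrict
          (LinearMap.BilinForm.orthogonal (dg v) (LinearMap.ker (prj m))))) ≠ 0 := by
        intro h'
        have h2 : (1 : Fin (m + 1) → F) = 0 := congrArg (fun x => x.1.1) h'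
        have h3 := congrFun h2 0
        exact one_ne_zero h3
      refine (finrank_eq_one_iff_of_nonzero' _ hne).2 ?_
      rintro ⟨⟨x, hx⟩, hx0⟩
      refine ⟨x (Fin.last m), Subtype.ext (Subtype.ext ?_)⟩
      exact (prj_zero (w := x) hx0).symm
    rw [h1] at hd
    omega

/-- the matrix with given symmetric part and diagonal is singular -/
theorem det_rows {n : ℕ} (a : Fin n → Fin n → F) (h0 : ∀ i, a i i = 0) (v : Fin n → F) :
    (Matrix.of fun i j => if i = j then (∑ k, a i k) + v i else a i j).det ≠ 0 ↔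
      ∀ w : Fin n → F, (∀ j, v j * w j + ∑ k, a j k * (w k + w j) = 0) → w = 0 := by
  have hrow : ∀ (w : Fin n → F) (j : Fin n),
      ((Matrix.of fun i j => if i = j then (∑ k, a i k) + v i else a i j).mulVec w) j =
        v j * w j + ∑ k, a j k * (w k + w j) := by
    intro w j
    show ∑ k, (if j = k then (∑ k, a j k) + v j else a j k) * w k = _
    have h1 : ∀ k, (if j = k then (∑ k, a j k) + v j else a j k) * w k =
        a j k * w k + (if j = k then ((∑ k, a j k) + v j) * w k else 0) := by
      intro k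
      by_cases h : j = k
      · rw [if_pos h, if_pos h, ← h, h0, zero_mul, zero_add]
      · rw [if_neg h, if_neg h, add_zero]
    simp only [h1]
    rw [sum_add_distrib, sum_ite_eq, if_pos (mem_univ _)]
    simp only [mul_add, sum_add_distrib]
    rw [← sum_mul]
    ring
  rw [ne_eq, ← Matrix.exists_mulVec_eq_zero_iff]
  constructor
  · intro h w hw
    by_contra hne
    exact h ⟨w, hne, funext fun j => (hrow w j).trans (hw j)⟩
  · rintro h ⟨w, hne, hw⟩
    exact hne (h w fun j => by rw [← hrow, hw]; rfl)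

theorem double_zero {n : ℕ} (a : Fin n → Fin n → F) (hs : ∀ i j, a i j = a j i) (w : Fin n → F) :
    ∑ j, ∑ k, a j k * (w k + w j) = 0 := by
  have h1 : ∑ j, ∑ k, a j k * w k = ∑ j, ∑ k, a j k * w j := by
    rw [sum_comm]
    exact sum_congr rfl fun j _ => sum_congr rfl fun k _ => by rw [hs]
  simp only [mul_add, sum_add_distrib]
  rw [h1]
  exact two_eq _

theorem prs_J1 (m : ℕ) (e : Fin (m + 1) × Fin (m + 1)) :
    e ∈ prs (univ : Finset (Fin (m + 1))) ↔ e ∈ prs (J1 m) := by
  obtain ⟨k, l⟩ := e
  rw [mem_prs, mem_prs, mem_J1, mem_J1]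
  constructor
  · rintro ⟨-, h2, h3⟩
    have h4 := h3 (mem_univ _)
    exact ⟨ne_of_lt (lt_of_lt_of_le h4 (Fin.le_last l)), h2, fun _ => h4⟩
  · rintro ⟨h1, h2, h3⟩
    refine ⟨mem_univ _, h2, fun _ => ?_⟩
    by_cases h : l = Fin.last m
    · rw [h]
      exact lt_of_le_of_ne (Fin.le_last k) h1
    · exact h3 h

/-- the reindexing -/
noncomputable def reidx (m : ℕ) :
    (prs (J1 m) → F) ≃ (prs (univ : Finset (Fin (m + 1))) → F) :=
  (Equiv.subtypeEquivRight (prs_J1 m)).symm.arrowCongr (Equiv.refl F)

theorem reidx_apply {m : ℕ} (α : prs (J1 m) → F) (e : prs (univ : Finset (Fin (m + 1)))) :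
    reidx m α e = α ⟨e.1, (prs_J1 m e.1).1 e.2⟩ := rfl

theorem ext_reidx {m : ℕ} (α : prs (J1 m) → F) {k : Fin (m + 1)} (hk : k ∈ J1 m)
    (l : Fin (m + 1)) :
    Pool.Agent.Y703.CQ.ext (reidx m α) k l = Pool.Agent.Y703.CQ.ext α k l := by
  unfold Pool.Agent.Y703.CQ.ext
  by_cases h : (k, l) ∈ prs (J1 m)
  · rw [dif_pos h, dif_pos ((prs_J1 m (k, l)).2 h)]
    rfl
  · rw [dif_neg h, dif_neg fun h' => h ((prs_J1 m (k, l)).1 h')]
    by_cases h2 : (l, k) ∈ prs (J1 m) ∧ k ∈ J1 m
    · rw [dif_pos h2, dif_pos ⟨(prs_J1 m (l, k)).2 h2.1, mem_univ _⟩]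
      rfl
    · rw [dif_neg h2, dif_neg fun h' => h2 ⟨(prs_J1 m (l, k)).1 h'.1, hk⟩]

theorem form_rows {m : ℕ} (α : prs (J1 m) → F) (v w : Fin (m + 1) → F) :
    (∀ w', dg v w w' + (pa (J1 m) α).1 (prj m w) (prj m w') = 0) ↔
      ∀ j, v j * w j + ∑ k, Pool.Agent.Y703.CQ.ext (reidx m α) j k * (w k + w j) = 0 := by
  set a : Fin (m + 1) → Fin (m + 1) → F := Pool.Agent.Y703.CQ.ext (reidx m α) with ha
  have hs : ∀ i j, a i j = a j i := by
    intro i j
    rw [ha]
    exact Pool.Agent.Y219.CQ.ext_symm univ _ (mem_univ _) (mem_univ _)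
  have h0 : ∀ i, a i i = 0 := fun i => by
    rw [ha]
    exact Pool.Agent.Y219.CQ.ext_self univ _ i
  have hL : Fin.last m ∉ J1 m := fun h => (mem_J1 _).1 h rfl
  -- the rows of the form
  have hrow : ∀ j : J1 m, ∑ k : J1 m, (prj m w) k * mL (J1 m) α k j =
      ∑ k, a j k * (w k + w j) := by
    intro j
    have h1 : ∀ k : J1 m, (prj m w) k * mL (J1 m) α k j =
        a j k * (w k + w (Fin.last m)) +
          (if k = j then (w j + w (Fin.last m)) * ∑ l, a j l else 0) := by
      intro k
      unfold mL
      rw [prj_apply, ← ext_reidx α k.2, ← ha, hs]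
      have h2 : ∑ l', Pool.Agent.Y703.CQ.ext α k l' = ∑ l', a k l' :=
        sum_congr rfl fun l' _ => by rw [← ext_reidx α k.2]
      rw [h2]
      by_cases h : k = j
      · rw [if_pos h, if_pos h, h]
        ring
      · rw [if_neg h, if_neg h]
        ring
    simp only [h1]
    rw [sum_add_distrib, sum_ite_eq', if_pos (mem_univ _)]
    have h3 : ∑ k : J1 m, a j k * (w k + w (Fin.last m)) =
        ∑ k, a j k * (w k + w (Fin.last m)) := by
      rw [Finset.sum_coe_sort (J1 m) fun k => a j k * (w k + w (Fin.last m))]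
      refine sum_subset (subset_univ _) fun k _ hk => ?_
      have hk' : k = Fin.last m := by
        by_contra h
        exact hk ((mem_J1 k).2 h)
      rw [hk', two_eq, mul_zero]
    rw [h3, mul_sum, ← sum_add_distrib]
    refine sum_congr rfl fun k _ => ?_
    have h4 := two_eq (a j k * w (Fin.last m))
    linear_combination h4
  have hT : ∀ y : J1 m → F, (pa (J1 m) α).1 (prj m w) y =
      ∑ j : J1 m, (∑ k, a j k * (w k + w j)) * y j := by
    intro y
    show bf (mL (J1 m) α) (prj m w) y = _
    rw [Pool.Agent.Y219.CQ.bf_l]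
    exact sum_congr rfl fun j _ => by rw [hrow]
  have hlast : ∑ j : J1 m, ∑ k, a j k * (w k + w j) =
      ∑ k, a (Fin.last m) k * (w k + w (Fin.last m)) := by
    rw [Finset.sum_coe_sort (J1 m) fun j => ∑ k, a j k * (w k + w j)]
    have h1 := double_zero a hs w
    have h2 : ∑ j, ∑ k, a j k * (w k + w j) =
        ∑ k, a (Fin.last m) k * (w k + w (Fin.last m)) +
          ∑ j ∈ J1 m, ∑ k, a j k * (w k + w j) := by
      unfold J1
      exact (add_sum_erase univ _ (mem_univ _)).symm
    rw [h1] at h2
    have h3 := two_eq (∑ k, a (Fin.last m) k * (w k + w (Fin.last m)))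
    linear_combination (-1 : F) * h2 - h3
  have hall : ∀ w' : Fin (m + 1) → F, dg v w w' + (pa (J1 m) α).1 (prj m w) (prj m w') =
      ∑ j, (v j * w j + ∑ k, a j k * (w k + w j)) * w' j := by
    intro w'
    rw [dg_apply, hT]
    have h1 : ∑ j : J1 m, (∑ k, a j k * (w k + w j)) * (prj m w') j =
        ∑ j, (∑ k, a j k * (w k + w j)) * w' j := by
      have h2 : ∀ j : J1 m, (∑ k, a j k * (w k + w j)) * (prj m w') j =
          (∑ k, a j k * (w k + w j)) * w' j +
            (∑ k, a j k * (w k + w j)) * w' (Fin.last m) := fun j => by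
        rw [prj_apply, mul_add]
      simp only [h2]
      rw [sum_add_distrib, ← sum_mul, hlast,
        Finset.sum_coe_sort (J1 m) fun j => (∑ k, a j k * (w k + w j)) * w' j]
      unfold J1
      rw [add_comm]
      exact add_sum_erase univ (fun j => (∑ k, a j k * (w k + w j)) * w' j) (mem_univ _)
    rw [h1, ← sum_add_distrib]
    exact sum_congr rfl fun j _ => by ring
  constructor
  · intro h
    exact Pool.Agent.Y219.CQ.all_zero _ fun w' => by rw [← hall, h]
  · intro h w'
    rw [hall]
    exact sum_eq_zero fun j _ => by rw [h, zero_mul]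

/-- the probability that the matrix of a random graph and of a nonzero vector is nonsingular -/
theorem graph_prob {m : ℕ} (v : Fin (m + 1) → ZMod 2) (hv : v ≠ 0) :
    (Nat.card {G : SimpleGraph (Fin (m + 1)) // (symMat G v univ).det ≠ 0} : ℝ) /
      Nat.card (SimpleGraph (Fin (m + 1))) = sp (if ∑ i, v i = 1 then m else m - 1) := by
  have hL : ∃ l, l ∉ J1 m := ⟨Fin.last m, fun h => (mem_J1 _).1 h rfl⟩
  have h1 := row_prob v hv
  rw [← fr_comp (pa (J1 m)) (pa_surj (J1 m) hL)] at h1
  rw [← h1]
  have h2 := fr_equiv ((reidx m).trans (toG (m + 1))) fun G : SimpleGraph (Fin (m + 1)) =>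
    (symMat G v univ).det ≠ 0
  refine Eq.trans h2.symm ?_
  congr 1
  funext α
  refine propext ?_
  rw [forall_congr' fun w => imp_congr_left (form_rows α v w)]
  rw [← det_rows _ (fun i => Pool.Agent.Y219.CQ.ext_self univ _ i) v]
  have e : symMat ((reidx m).trans (toG (m + 1)) α) v univ =
      (Matrix.of fun i j => if i = j then
        (∑ k, Pool.Agent.Y703.CQ.ext (reidx m α) i k) + v i else
          Pool.Agent.Y703.CQ.ext (reidx m α) i j).submatrix
        (Equiv.subtypeUnivEquiv (p := fun x : Fin (m + 1) => x ∈ (univ : Finset (Fin (m + 1))))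
          fun x => mem_univ x)
        (Equiv.subtypeUnivEquiv (p := fun x : Fin (m + 1) => x ∈ (univ : Finset (Fin (m + 1))))
          fun x => mem_univ x) := by
    have hadj : ∀ i j, ((reidx m).trans (toG (m + 1)) α).Adj i j ↔
        i ≠ j ∧ Pool.Agent.Y703.CQ.ext (reidx m α) i j ≠ 0 := fun _ _ => Iff.rfl
    have hval : ∀ i j, i ≠ j → (if ((reidx m).trans (toG (m + 1)) α).Adj i j then (1 : F) else 0) =
        Pool.Agent.Y703.CQ.ext (reidx m α) i j := by
      intro i j hij
      rcases z2_cases (Pool.Agent.Y703.CQ.ext (reidx m α) i j) with h | h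
      · rw [if_neg fun h' => ((hadj i j).1 h').2 h, h]
      · rw [if_pos ((hadj i j).2 ⟨hij, by rw [h]; exact one_ne_zero⟩), h]
    have hval' : ∀ i j, (if ((reidx m).trans (toG (m + 1)) α).Adj i j then (1 : F) else 0) =
        Pool.Agent.Y703.CQ.ext (reidx m α) i j := by
      intro i j
      by_cases hij : i = j
      · rw [hij, if_neg (SimpleGraph.irrefl _), Pool.Agent.Y219.CQ.ext_self univ _ j]
      · exact hval i j hij
    ext i j
    rw [Matrix.submatrix_apply, Matrix.of_apply]
    have hi : ∀ i : (univ : Finset (Fin (m + 1))), (Equiv.subtypeUnivEquiv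
        (p := fun x : Fin (m + 1) => x ∈ (univ : Finset (Fin (m + 1)))) (fun x => mem_univ x)) i =
          (i : Fin (m + 1)) := fun _ => rfl
    rw [hi, hi]
    by_cases hij : i = j
    · subst hij
      rw [symMat_self, if_pos rfl]
      congr 1
      rw [card_filter, Nat.cast_sum]
      refine sum_congr rfl fun k _ => ?_
      rw [← hval' i k]
      split_ifs <;> simp
    · rw [symMat_ne hij, if_neg fun h => hij (Subtype.ext h)]
      exact hval _ _ fun h => hij (Subtype.ext h)
  rw [e, Matrix.det_submatrix_equiv_self]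

end Pool.Agent.R338.EQ
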