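import Pool.Agent.R338.EQ.Rate
import Pool.Agent.Y302.CQ.CHE

/-!
# Boxes of primes in residue classes modulo 56
-/

set_option autoImplicit false

open scoped Classical

namespace Pool.Agent.R338.EQ

open Finset Function
open Pool.Agent.Y703.CQ
open Pool.Agent.Y219.CQ (sp)

/-- the primes up to `Y` in the class of `a` modulo `56`, different from `3` -/
noncomputable def cls (a Y : ℕ) : Finset ℕ :=
  (range (Y + 1)).filter fun p => p.Prime ∧ p ≠ 3 ∧ p % 56 = a % 56

theorem cls_card : ∃ (c : ℝ) (Y₀ : ℕ), 0 < c ∧ ∀ Y : ℕ, Y₀ ≤ Y → ∀ a : ℕ, Nat.Coprime a 56 →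
    c * (Y / Real.log Y) ≤ ((cls a Y).card : ℝ) := by
  obtain ⟨c, Y₀, hc, h⟩ := Pool.Agent.Y302.CQ.che_main
  -- `Y / log Y` tends to infinity
  have hlim : Filter.Tendsto (fun Y : ℕ => (Y : ℝ) / Real.log Y) Filter.atTop Filter.atTop := by
    have h1 : Filter.Tendsto (fun x : ℝ => x / Real.log x) Filter.atTop Filter.atTop := by
      have h2 := Real.isLittleO_log_id_atTop
      have h3 : Filter.Tendsto (fun x : ℝ => Real.log x / x) Filter.atTop (nhds 0) :=
        h2.tendsto_div_nhds_zero
      have h4 : ∀ᶠ x : ℝ in Filter.atTop, 0 < Real.log x / x := by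
        filter_upwards [Filter.eventually_gt_atTop 1] with x hx
        exact div_pos (Real.log_pos hx) (by linarith)
      have h5 := Filter.Tendsto.inv_tendsto_nhdsGT_zero
        (tendsto_nhdsWithin_iff.2 ⟨h3, h4⟩)
      refine h5.congr fun x => ?_
      simp only [Pi.inv_apply, inv_div]
    exact h1.comp tendsto_natCast_atTop_atTop
  obtain ⟨Y1, hY1⟩ := Filter.eventually_atTop.1 (hlim.eventually_ge_atTop (2 / c))
  refine ⟨c / 2, max Y₀ Y1, by positivity, fun Y hY a ha => ?_⟩
  have h1 := h Y ((le_max_left _ _).trans hY) a ha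
  have h2 := hY1 Y ((le_max_right _ _).trans hY)
  have h3 : ((range (Y + 1)).filter fun p => p.Prime ∧ p % 56 = a % 56) ⊆
      insert 3 (cls a Y) := by
    intro p hp
    rw [mem_filter] at hp
    rw [mem_insert]
    by_cases h3 : p = 3
    · exact Or.inl h3
    · exact Or.inr (mem_filter.2 ⟨hp.1, hp.2.1, h3, hp.2.2⟩)
  have h4 : (((range (Y + 1)).filter fun p => p.Prime ∧ p % 56 = a % 56).card : ℝ) ≤
      (cls a Y).card + 1 := by
    exact_mod_cast (card_le_card h3).trans (card_insert_le _ _)
  have h5 : (2 : ℝ) ≤ c * (Y / Real.log Y) := by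
    have := mul_le_mul_of_nonneg_left h2 hc.le
    rwa [mul_div_cancel₀ _ hc.ne'] at this
  have h6 : c * Y / Real.log Y = c * (Y / Real.log Y) := by ring
  rw [h6] at h1
  linarith

theorem x14 {n : ℕ} (a : Fin n → ℕ) (ha : ∀ i, Nat.Coprime (a i) 56) (hin : ∃ i, a i % 8 ≠ 1) :
    ∃ A : ℝ, 0 ≤ A ∧ ∀ (f : ℕ → ZMod 2) (X : Fin n → ℕ) (z : ℕ), 2 ≤ z → (∀ i, z ≤ X i) →
      (∀ i, Real.log (X i) ≤ (z : ℝ) ^ (1 / (24 * n : ℝ))) →
      |(((Fintype.piFinset fun i => cls (a i) (X i)).filter fun p =>
          Injective p ∧ Gd f (univ.image p)).card : ℝ) -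
          sp (univ.filter fun i => a i % 8 = 1).card *
            (((Fintype.piFinset fun i => cls (a i) (X i)).filter fun p => Injective p).card : ℝ)| ≤
        A * (z : ℝ) ^ (-(1 / 24 : ℝ)) *
          (((Fintype.piFinset fun i => cls (a i) (X i)).filter fun p => Injective p).card : ℝ) := by
  obtain ⟨c, Y0, hc, hcard⟩ := cls_card
  set J1 : Finset (Fin n) := univ.filter fun i => a i % 8 = 1 with hJ1
  obtain ⟨i0, hi0⟩ := hin
  have : Nonempty (Fin n) := ⟨i0⟩
  have hl : ∃ l, l ∉ J1 := ⟨i0, by rw [hJ1, mem_filter]; exact fun h => hi0 h.2⟩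
  obtain ⟨A, hA, h⟩ := rate (ι := Fin n) (K := 2 ^ n * (2 ^ (prs J1).card * 4)) hc
    (by positivity) Y0
  refine ⟨A, hA, fun f X z hz hzX hlog => ?_⟩
  have hmem : ∀ p ∈ Fintype.piFinset fun i => cls (a i) (X i), ∀ i,
      p i ≤ X i ∧ (p i).Prime ∧ p i ≠ 3 ∧ p i % 56 = a i % 56 := by
    intro p hp i
    rw [Fintype.mem_piFinset] at hp
    have := hp i
    unfold cls at this
    rw [mem_filter, mem_range] at this
    exact ⟨by omega, this.2⟩
  have key := h (fun i => cls (a i) (X i)) X z (sp J1.card)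
    (fun p => GdJ J1 (fun k l => nr (p k) (p l)) (fun k => f (p k))) hz hzX
    (by rw [Fintype.card_fin]; exact hlog) (sp_nonneg _) (sp_le_one _)
    (fun hY j => hcard (X j) (hY.trans (hzX j)) (a j) (ha j)) (fun _ => by
      have h1 := box_gdJ J1 hl (fun i => cls (a i) (X i)) X (by omega : 1 ≤ z) hzX
        (fun i p hp => by
          unfold cls at hp
          rw [mem_filter, mem_range] at hp
          refine ⟨hp.2.1, ?_, by omega⟩
          rintro rfl
          have h2 := hp.2.2.2
          have h3 : Nat.Coprime (a i) 2 := Nat.Coprime.coprime_dvd_right (by norm_num) (ha i)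
          have h4 := Nat.odd_iff.1 (Nat.coprime_two_right.1 h3)
          omega)
        (fun i hi p hp => by
          unfold cls at hp
          rw [mem_filter, mem_range] at hp
          rw [hJ1, mem_filter] at hi
          have := hp.2.2.2
          have := hi.2
          omega) f
      refine h1.trans (le_of_eq ?_)
      rw [Fintype.card_fin]
      unfold kap
      ring)
  have e : ((Fintype.piFinset fun i => cls (a i) (X i)).filter fun p =>
        Injective p ∧ Gd f (univ.image p)) =
      ((Fintype.piFinset fun i => cls (a i) (X i)).filter fun p =>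
        Injective p ∧ GdJ J1 (fun k l => nr (p k) (p l)) (fun k => f (p k))) := by
    refine filter_congr fun p hp => and_congr_right fun hinj => ?_
    rw [gd_image p hinj f]
    have e1 : (univ.filter fun i => p i % 8 = 1) = J1 := by
      rw [hJ1]
      refine filter_congr fun i _ => ?_
      have := (hmem p hp i).2.2.2
      omega
    rw [e1]
  rw [e]
  exact key

end Pool.Agent.R338.EQ
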